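import Pool.Agent.TD.F.Defs

/-!
# Block F: functoriality of the pull back, isomorphisms
-/

open scoped ContDiff Topology
open Polynomial

namespace Pool.Agent.TD

namespace Mor

variable {X Φ X' Φ' X'' Φ'' : Type} [TopologicalSpace X] [TopologicalSpace X']
  [TopologicalSpace X''] {L : LogSpace X Φ} {L' : LogSpace X' Φ'} {L'' : LogSpace X'' Φ''}
  {p q : ℕ}

theorem ext' {m m' : Mor L L'} (h1 : m.toFun = m'.toFun) (h2 : m.ix = m'.ix) : m = m' := by
  cases m
  cases m'
  simp only at h1 h2
  subst h1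
  subst h2
  rfl

theorem pullS_id {z : X} (c : L.Stalk p q z) : (Mor.id L).pullS p q z c = c := by
  obtain ⟨θ, h, rfl⟩ := L.exists_germ c
  exact (Mor.id L).pullS_germ (z := z) h

theorem pullG_id (c : L.G p q) : (Mor.id L).pullG p q c = c := by
  apply Subtype.ext
  funext z
  exact pullS_id (c.1 z)

theorem pullG_comp (m : Mor L L') (m' : Mor L' L'') (c : L''.G p q) :
    (m.comp m').pullG p q c = m.pullG p q (m'.pullG p q c) := by
  apply Subtype.ext
  funext z
  exact m.pullS_comp m' (z := z) (c.1 (m'.toFun (m.toFun z)))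

/-- Mutually inverse morphisms. -/
theorem pullG_inv {m : Mor L L'} {m' : Mor L' L} (h1 : ∀ z, m'.toFun (m.toFun z) = z)
    (h2 : ∀ f, m.ix (m'.ix f) = f) (c : L.G p q) : m.pullG p q (m'.pullG p q c) = c := by
  have e : m.comp m' = Mor.id L := ext' (funext h1) (funext h2)
  rw [← pullG_comp, e, pullG_id]

end Mor

section
variable {K A B : Type} [NormedField K] [CommRing A] [Algebra K A] [CommRing B] [Algebra K B]
  {p q : ℕ}

theorem berM_inv_toFun (e : A ≃ₐ[K] B) (z : Ber K B) :
    (berM (e.symm : B →ₐ[K] A)).toFun ((berM (e : A →ₐ[K] B)).toFun z) = z := by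
  apply Ber.ext_v
  intro a
  show z.v (e (e.symm a)) = z.v a
  rw [e.apply_symm_apply]

theorem berM_pull_inv (e : A ≃ₐ[K] B) (c : (berLS K B).G p q) :
    (berM (e : A →ₐ[K] B)).pullG p q ((berM (e.symm : B →ₐ[K] A)).pullG p q c) = c :=
  Mor.pullG_inv (berM_inv_toFun e) (fun f => e.apply_symm_apply f) c

theorem berM_homeo (e : A ≃ₐ[K] B) :
    IsHomeomorph ((berM (e : A →ₐ[K] B)).toFun : Ber K B → Ber K A) := by
  let H : Ber K B ≃ₜ Ber K A :=
    { toFun := (berM (e : A →ₐ[K] B)).toFun
      invFun := (berM (e.symm : B →ₐ[K] A)).toFun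
      left_inv := berM_inv_toFun e
      right_inv := berM_inv_toFun e.symm
      continuous_toFun := (berM (e : A →ₐ[K] B)).cont
      continuous_invFun := (berM (e.symm : B →ₐ[K] A)).cont }
  exact H.isHomeomorph

end

end Pool.Agent.TD
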