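import Pool.Agent.TD.F.Pr
import Pool.Agent.TD.H.Cx
import Pool.Agent.TD.H.H4

/-!
# Block F: the morphism of complexes with supports over `M(A)`
-/

open scoped ContDiff Topology
open Polynomial

namespace Pool.Agent.TD

/-- Local properties of `M(A)`. -/
structure Good (K A : Type) [NormedField K] [CommRing A] [Algebra K A] : Prop where
  lc : LocallyCompactSpace (Ber K A)
  cut : (berLS K A).CutOff
  star : ∀ z, (berLS K A).StarAt z

section
variable {K A : Type} [NormedField K] [CommRing A] [Algebra K A]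
  [LocallyCompactSpace (Ber K A)] [LocallyCompactSpace (Ber K A[X])]
  (hA : (berLS K A).CutOff) (hX : (berLS K A[X]).CutOff) (r : ℝ)

/-- The complex of forms of type `(p,*)` near the circle bundle, pushed to `M(A)`. -/
noncomputable abbrev circD (p : ℕ) : SCx (Ber K A) :=
  ((berLS K A[X]).cx hX p).push (properOn_circ (K := K) (A := A) r)

/-- Pull back of functions (type `(0,*)`). -/
noncomputable def phi0 : SHom ((berLS K A).cx hA 0) (circD hX r 0) where
  f q := (((berLS K A[X]).cx hX 0).cls (circB K A r) q).comp ((prM K A).pullG 0 q).toAddMonoidHom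
  comm := by
    intro q c
    show ((berLS K A[X]).cx hX 0).cls (circB K A r) (q + 1)
        ((prM K A).pullG 0 (q + 1) ((berLS K A).ddG 0 q c)) =
      ((berLS K A[X]).cx hX 0).cls (circB K A r) (q + 1)
        ((berLS K A[X]).ddG 0 q ((prM K A).pullG 0 q c))
    rw [Mor.pullG_ddG]
  supp := by
    intro q c
    refine (SCx.push_supp _ (properOn_circ (K := K) (A := A) r) _).subset.trans ?_
    rintro _ ⟨z, ⟨hz, -⟩, rfl⟩ h0
    refine hz ?_
    show (prM K A).pullS 0 q z (c.1 ((prM K A).toFun z)) = 0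
    rw [h0, map_zero]

/-- The map `(a, b) ↦ pr^* a + dlog|X| ∧ pr^* b`, for a section `ξ` equal to `dlog|X|` near the
circle bundle. -/
noncomputable def phi1 (ξ : (berLS K A[X]).G 1 0)
    (hξ : ∀ z ∈ circB K A r, (berLS K A[X]).ddS 1 0 z (ξ.1 z) = 0 ∧ ξ.1 z ∈ (berLS K A[X]).L1 z)
    (p : ℕ) : SHom (((berLS K A).cx hA (p + 1)).prod ((berLS K A).cx hA p))
      (circD hX r (p + 1)) where
  f q := (((berLS K A[X]).cx hX (p + 1)).cls (circB K A r) q).comp
    { toFun := fun c : (berLS K A).G (p + 1) q × (berLS K A).G p q =>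
        (prM K A).pullG (p + 1) q c.1 + (berLS K A[X]).wdG p q ξ ((prM K A).pullG p q c.2)
      map_zero' := by
        apply Subtype.ext
        funext z
        show (prM K A).pullS (p + 1) q z 0 +
          (berLS K A[X]).wdS p q z (ξ.1 z) ((prM K A).pullS p q z 0) = 0
        rw [map_zero, map_zero, map_zero, add_zero]
      map_add' := by
        intro c c'
        apply Subtype.ext
        funext z
        show (prM K A).pullS (p + 1) q z (c.1.1 _ + c'.1.1 _) +
          (berLS K A[X]).wdS p q z (ξ.1 z) ((prM K A).pullS p q z (c.2.1 _ + c'.2.1 _)) =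
          ((prM K A).pullS (p + 1) q z (c.1.1 _) +
            (berLS K A[X]).wdS p q z (ξ.1 z) ((prM K A).pullS p q z (c.2.1 _))) +
          ((prM K A).pullS (p + 1) q z (c'.1.1 _) +
            (berLS K A[X]).wdS p q z (ξ.1 z) ((prM K A).pullS p q z (c'.2.1 _)))
        rw [map_add, map_add, map_add]
        abel }
  comm := by
    intro q c
    show ((berLS K A[X]).cx hX (p + 1)).cls (circB K A r) (q + 1)
        ((prM K A).pullG (p + 1) (q + 1) ((berLS K A).ddG (p + 1) q c.1) +
          (berLS K A[X]).wdG p (q + 1) ξ ((prM K A).pullG p (q + 1) ((berLS K A).ddG p q c.2))) =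
      ((berLS K A[X]).cx hX (p + 1)).cls (circB K A r) (q + 1)
        ((berLS K A[X]).ddG (p + 1) q ((prM K A).pullG (p + 1) q c.1 +
          (berLS K A[X]).wdG p q ξ ((prM K A).pullG p q c.2)))
    rw [← sub_eq_zero, ← map_sub, SCx.cls_eq_zero]
    refine ((berLS K A[X]).disj_supp_sub _ _ _).2 fun z hz => ?_
    show (prM K A).pullS (p + 1) (q + 1) z ((berLS K A).ddS (p + 1) q _ (c.1.1 _)) +
        (berLS K A[X]).wdS p (q + 1) z (ξ.1 z)
          ((prM K A).pullS p (q + 1) z ((berLS K A).ddS p q _ (c.2.1 _))) =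
      (berLS K A[X]).ddS (p + 1) q z ((prM K A).pullS (p + 1) q z (c.1.1 _) +
        (berLS K A[X]).wdS p q z (ξ.1 z) ((prM K A).pullS p q z (c.2.1 _)))
    rw [map_add, LogSpace.ddS_wdS _ (hξ z hz).2, Mor.pullS_ddS, Mor.pullS_ddS]
  supp := by
    intro q c
    refine (SCx.push_supp _ (properOn_circ (K := K) (A := A) r) _).subset.trans ?_
    rintro _ ⟨z, ⟨hz, -⟩, rfl⟩
    by_contra h0
    have h1 : c.1.1 ((prM K A).toFun z) = 0 := by
      by_contra h2
      exact h0 (Or.inl h2)
    have h3 : c.2.1 ((prM K A).toFun z) = 0 := by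
      by_contra h2
      exact h0 (Or.inr h2)
    refine hz ?_
    show (prM K A).pullS (p + 1) q z (c.1.1 _) +
      (berLS K A[X]).wdS p q z (ξ.1 z) ((prM K A).pullS p q z (c.2.1 _)) = 0
    rw [h1, h3, map_zero, map_zero, map_zero, add_zero]

end

end Pool.Agent.TD
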