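import Pool.Agent.TD.F.Tor
import Pool.Agent.TD.F.Hom

/-!
# Block F, (F2): the case of a point
-/

open scoped ContDiff Topology
open Polynomial

namespace Pool.Agent.TD

/-- The spectrum `M(K)` is a point. -/
theorem ber_self_eq (K : Type) [NormedField K] (z w : Ber K K) : z = w :=
  Ber.ext_v fun a => (z.ext a).trans (w.ext a).symm

/-- The point of `M(K)`. -/
noncomputable def fzPt (K : Type) [NormedField K] [IsUltrametricDist K] : Ber K K where
  v a := ‖a‖
  nonneg a := norm_nonneg a
  one := norm_one
  mul a b := norm_mul a b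
  add a b := IsUltrametricDist.norm_add_le_max a b
  ext _ := rfl

theorem fz_dlS (K : Type) [NormedField K] (z : Ber K K) (f : K) (h : z ∈ (berLS K K).dom f) :
    (berLS K K).dlS f h = 0 := by
  have h1 := (berLS K K).dlS_eq_sum (n := 0) (g := Fin.elim0) h (fun i => i.elim0)
    (fun i => i.elim0) ((berLS K K).lf f z) (Filter.Eventually.of_forall fun z' => by
      rw [ber_self_eq K z' z, Finset.univ_eq_empty, Finset.sum_empty, add_zero])
  rw [h1, Finset.univ_eq_empty, Finset.sum_empty]

/-- (F2) for `n = 0`. -/
theorem torP_self (K : Type) [NormedField K] [IsUltrametricDist K] (hG : Good K K) :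
    TorP K (Fin.elim0 : Fin 0 → K) := by
  have hlc := hG.lc
  refine ⟨?_, ?_, ?_, ?_⟩
  · intro b
    refine Set.Subsingleton.isCompact fun z _ w _ => ber_self_eq K z w
  · intro b p q c hc
    by_cases hne : Nonempty (Ber K K)
    · obtain ⟨z⟩ := hne
      obtain ⟨e, he⟩ := (berLS K K).poincare (hG.star z) (c.1 z) (hc z fun i => i.elim0)
      obtain ⟨θ, h, rfl⟩ := (berLS K K).exists_germ e
      obtain ⟨c0, hc0⟩ := (berLS K K).extend_germ hG.cut h
      obtain ⟨h', e'⟩ := hc0.self_of_nhds
      refine ⟨c0, fun z' _ => ?_⟩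
      obtain rfl := ber_self_eq K z' z
      rw [e']
      exact he.symm
    · exact ⟨0, fun z _ => absurd ⟨z⟩ hne⟩
  · intro b p c hc
    by_cases hne : Nonempty (Ber K K)
    · obtain ⟨z⟩ := hne
      have h1 := (berLS K K).poincare0 (hG.star z) (c.1 z) (hc z fun i => i.elim0)
      cases p with
      | zero =>
        rw [(berLS K K).Lp_zero] at h1
        obtain ⟨a, ha⟩ := Submodule.mem_span_singleton.1 h1
        refine ⟨ContinuousAlternatingMap.constOfIsEmpty ℝ (Fin 0 → ℝ) (Fin 0) a, fun z' _ => ?_⟩
        obtain rfl := ber_self_eq K z' z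
        refine ⟨(berLS K K).sfat_cstR (fun i => i.elim0) _, ?_⟩
        rw [← ha]
        have h2 : a • (berLS K K).oneS z' = (berLS K K).germ (a • one0)
            (LogSpace.SFat.smul a ⟨∅, isSF_one0 ∅, by simp⟩) :=
          ((berLS K K).germ_smul a _).symm
        rw [h2]
        refine (berLS K K).germ_congr ?_ _ _
        funext x w v
        change a * 1 = a
        rw [mul_one]
      | succ p =>
        have h2 : c.1 z = 0 := by
          rw [(berLS K K).Lp_succ] at h1
          have h3 : Submodule.span ℝ {x | ∃ f, ∃ h : z ∈ (berLS K K).dom f,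
              ∃ c ∈ (berLS K K).Lp p z, x = (berLS K K).wdS p 0 z ((berLS K K).dlS f h) c} ≤ ⊥ := by
            rw [Submodule.span_le]
            rintro x ⟨f, h, c, -, rfl⟩
            rw [fz_dlS, map_zero, LinearMap.zero_apply]
            exact Submodule.zero_mem _
          exact (Submodule.mem_bot ℝ).1 (h3 h1)
        refine ⟨0, fun z' _ => ?_⟩
        obtain rfl := ber_self_eq K z' z
        refine ⟨(berLS K K).sfat_cstR (fun i => i.elim0) _, ?_⟩
        rw [h2, ← (berLS K K).germ_zero]
        refine (berLS K K).germ_congr ?_ _ _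
        funext x w v
        rfl
    · exact ⟨0, fun z _ => absurd ⟨z⟩ hne⟩
  · intro b p α hα
    cases p with
    | zero =>
      obtain ⟨u, -, V, hV, hVd, hv⟩ := hα (fzPt K) fun i => i.elim0
      obtain ⟨x, hx⟩ := rs_surjective u ((berLS K K).trop u (fzPt K))
      have h1 := hv {(berLS K K).trop u (fzPt K)} (convex_singleton _)
        (Set.singleton_subset_iff.2 ⟨fzPt K, mem_of_mem_nhds hV, rfl⟩) x
        (fun i => i.elim0) (fun i => i.elim0) hx (fun i => i.elim0) (fun i => i.elim0)
      ext u'
      refine Eq.trans ?_ h1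
      exact congrArg α (Subsingleton.elim _ _)
    | succ p =>
      ext v
      exact α.map_coord_zero 0 (Subsingleton.elim _ _)

end Pool.Agent.TD
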