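import Pool.Agent.TD.F.Cst
import Pool.Agent.TD.F.Hom
import Pool.Agent.TD.U.U5a
import Pool.Agent.TD.BG.All

/-!
# Block F: the interface to block U, local properties of `M(A)`
-/

open scoped ContDiff Topology
open Polynomial

namespace Pool.Agent.TD

theorem good_of_finiteType (K A : Type) [NormedField K] [IsUltrametricDist K] [CommRing A]
    [Algebra K A] [Algebra.FiniteType K A] : Good K A where
  lc := (BG.exh K A).1
  cut := BG.cut K A
  star z := (BG.sta K A z).1

section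
variable {K A : Type} [NormedField K] [CommRing A] [Algebra K A]

theorem bridge_ix : (prX K A).ix = (prM K A).ix := funext fun _ => rfl

theorem bridge_fun : (prX K A).toFun = (prM K A).toFun :=
  funext fun _ => Ber.ext_v fun _ => rfl

theorem bridge_mem {y : Ber K A} {r : ℝ} {z : Ber K A[X]} :
    z ∈ circ y r ↔ z ∈ circB K A r ∧ (prM K A).toFun z = y := by
  constructor
  · rintro ⟨h1, h2⟩
    exact ⟨h2, by rw [← bridge_fun]; exact h1⟩
  · rintro ⟨h1, h2⟩
    exact ⟨by rw [bridge_fun]; exact h2, h1⟩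

/-- A global section with a given constant germ at `y`. -/
theorem bridge_ext [LocallyCompactSpace (Ber K A)] (hC : (berLS K A).CutOff) {y : Ber K A}
    {p : ℕ} {x0 : Raw A p 0} (hx : IsCst x0) (hs : (berLS K A).SFat y x0) :
    ∃ a : (berLS K A).G p 0, (berLS K A).ddS p 0 y (a.1 y) = 0 ∧
      a.1 y = (berLS K A).germ x0 hs := by
  obtain ⟨a, ha⟩ := (berLS K A).extend_germ hC hs
  obtain ⟨ha1, ha2⟩ := ha.self_of_nhds
  refine ⟨a, ?_, ha2⟩
  rw [ha2]
  exact (berLS K A).Lp_closed ((berLS K A).germ_cst_mem hx ha1)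

theorem bridge_cst {y : Ber K A} (hst : (berLS K A).StarAt y) {p : ℕ}
    {x : (berLS K A).Stalk p 0 y} (hx : (berLS K A).ddS p 0 y x = 0) :
    ∃ x0 : Raw A p 0, IsCst x0 ∧ ∃ hs : (berLS K A).SFat y x0, x = (berLS K A).germ x0 hs :=
  (berLS K A).exists_cst ((berLS K A).poincare0 hst x hx)

end

/-- The degree zero part of the fibre theorem. -/
theorem circU (K A : Type) [NormedField K] [IsUltrametricDist K] [CommRing A] [IsDomain A]
    [Algebra K A] [Algebra.FiniteType K A] (r : ℝ) (hr : 0 < r) : CircU K A r := by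
  have hG := good_of_finiteType K A
  have := hG.lc
  have hC := hG.cut
  refine ⟨?_, ?_, ?_, ?_⟩
  · intro y c hc
    obtain ⟨t, ht⟩ := circ_raw0 BG.sta BG.int y hr c (by
      intro z hz
      exact hc z (bridge_mem.1 hz).1 (bridge_mem.1 hz).2)
    have h1 : (berLS K A).SFat y (one0 : Raw A 0 0) := ⟨∅, isSF_one0 ∅, by simp⟩
    obtain ⟨a, ha1, ha2⟩ := bridge_ext hC (isCst_one0.smul t) (h1.smul t)
    refine ⟨a, ha1, ?_⟩
    intro z hz hy
    subst hy
    rw [ht z (bridge_mem.2 ⟨hz, rfl⟩), Mor.pullG_val, ha2, (berLS K A).germ_smul t h1, map_smul]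
    rfl
  · intro p y c hc
    obtain ⟨x0, v0, hx0, hv0, hsx, hsv, h⟩ := circ_raw BG.sta BG.int y hr c (by
      intro z hz
      exact hc z (bridge_mem.1 hz).1 (bridge_mem.1 hz).2)
    obtain ⟨a, ha1, ha2⟩ := bridge_ext hC hx0 hsx
    obtain ⟨b, hb1, hb2⟩ := bridge_ext hC hv0 hsv
    refine ⟨a, b, ha1, hb1, ?_⟩
    intro z hz hd hy
    subst hy
    obtain ⟨k, hk⟩ := h z (bridge_mem.2 ⟨hz, rfl⟩)
    rw [hk, Mor.pullG_val, Mor.pullG_val, ha2, hb2, Mor.pullS_germ, Mor.pullS_germ,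
      LogSpace.dlS, LogSpace.wdS_germ, ← LogSpace.germ_add]
    exact (berLS K A[X]).germ_congr rfl _ _
  · intro y a ha h
    obtain ⟨x0, hx0, hs, e⟩ := bridge_cst (hG.star y) ha
    rw [e, LogSpace.germ_eq_zero]
    refine circ_inj0 y hr x0 hx0 hs ?_
    intro z hz
    obtain ⟨hz1, hz2⟩ := bridge_mem.1 hz
    subst hz2
    have h1 := h z hz1 rfl
    rw [Mor.pullG_val, e, Mor.pullS_germ, LogSpace.germ_eq_zero] at h1
    exact h1
  · intro p y a b ha hb h
    obtain ⟨x0, hx0, hs, e⟩ := bridge_cst (hG.star y) ha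
    obtain ⟨v0, hv0, ht, e'⟩ := bridge_cst (hG.star y) hb
    rw [e, e', LogSpace.germ_eq_zero, LogSpace.germ_eq_zero]
    refine circ_inj y hr x0 v0 hx0 hv0 hs ht ?_
    intro z hz
    obtain ⟨hz1, hz2⟩ := bridge_mem.1 hz
    subst hz2
    have h1 := h z hz1 (dom_of_circ hr hz1) rfl
    rw [Mor.pullG_val, Mor.pullG_val, e, e', Mor.pullS_germ, Mor.pullS_germ, LogSpace.dlS,
      LogSpace.wdS_germ, ← LogSpace.germ_add, LogSpace.germ_eq_zero] at h1
    exact h1

end Pool.Agent.TD
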