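import Pool.Agent.TD.F.QI

/-!
# Block F, (F1): forms near the circle bundle over a compact subset of `M(A)`
-/

open scoped ContDiff Topology
open Polynomial

namespace Pool.Agent.TD

section
variable {K A : Type} [NormedField K] [CommRing A] [Algebra K A] {r : ℝ}

/-- The circle bundle over `Z`. -/
def circZ (r : ℝ) (Z : Set (Ber K A)) : Set (Ber K A[X]) := circB K A r ∩ (prM K A).toFun ⁻¹' Z

/-- The section `ξ` is closed and in `L1` near the circle bundle. -/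
theorem circ_xi_ok (hr : 0 < r) {ξ : (berLS K A[X]).G 1 0}
    (hξ : ∀ z ∈ circB K A r, ∀ h, ξ.1 z = (berLS K A[X]).dlS (X : A[X]) h) :
    ∀ z ∈ circB K A r, (berLS K A[X]).ddS 1 0 z (ξ.1 z) = 0 ∧ ξ.1 z ∈ (berLS K A[X]).L1 z := by
  intro z hz
  have hd : z ∈ (berLS K A[X]).dom (X : A[X]) := dom_of_circ hr hz
  have h1 : (berLS K A[X]).dlS (X : A[X]) hd ∈ (berLS K A[X]).L1 z :=
    Submodule.subset_span ⟨X, hd, rfl⟩
  rw [hξ z hz hd]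
  exact ⟨(berLS K A[X]).Lp_closed (((berLS K A[X]).L1_eq _).1 h1), h1⟩

/-- Unpacking of the surjectivity part of `QIso` for `phi0`. -/
theorem circ_un0 (gA : Good K A) (gX : Good K A[X]) (hU : CircU K A r) {Z : Set (Ber K A)}
    (hZ : IsCompact Z) {q : ℕ} (c : (berLS K A[X]).G 0 q)
    (hc : ∀ z ∈ circZ r Z, (berLS K A[X]).ddS 0 q z (c.1 z) = 0) :
    ∃ a : (berLS K A).G 0 q, (∀ y ∈ Z, (berLS K A).ddS 0 q y (a.1 y) = 0) ∧
      haveI := gX.lc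
      ((berLS K A[X]).cx gX.cut 0).Bd (circZ r Z) q (c - (prM K A).pullG 0 q a) := by
  have := gA.lc
  have := gX.lc
  have hQ : (phi0 gA.cut gX.cut r).QIso Z :=
    (phi0 gA.cut gX.cut r).qiso_near hZ fun y _ => phi0_qiso gA.cut gX.cut gA.star gX.star hU y
  obtain ⟨a, ha1, ha2⟩ := hQ.2 q (((berLS K A[X]).cx gX.cut 0).cls (circB K A r) q c)
    ((SCx.push_Cl ((berLS K A[X]).cx gX.cut 0) (properOn_circ (K := K) (A := A) r) Z c).2
      (((berLS K A[X]).cx_Cl_iff gX.cut 0 (circZ r Z) q c).2 hc))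
  refine ⟨a, ((berLS K A).cx_Cl_iff gA.cut 0 Z q a).1 ha1, ?_⟩
  exact (SCx.push_Bd ((berLS K A[X]).cx gX.cut 0) (properOn_circ (K := K) (A := A) r) Z
    (c - (prM K A).pullG 0 q a)).1 ha2

/-- Unpacking of the surjectivity part of `QIso` for `phi1`. -/
theorem circ_un1 (gA : Good K A) (gX : Good K A[X]) (hU : CircU K A r) (hr : 0 < r)
    {ξ : (berLS K A[X]).G 1 0}
    (hξ : ∀ z ∈ circB K A r, ∀ h, ξ.1 z = (berLS K A[X]).dlS (X : A[X]) h)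
    {Z : Set (Ber K A)} (hZ : IsCompact Z) {p q : ℕ} (c : (berLS K A[X]).G (p + 1) q)
    (hc : ∀ z ∈ circZ r Z, (berLS K A[X]).ddS (p + 1) q z (c.1 z) = 0) :
    ∃ (a : (berLS K A).G (p + 1) q) (b : (berLS K A).G p q),
      (∀ y ∈ Z, (berLS K A).ddS (p + 1) q y (a.1 y) = 0) ∧
      (∀ y ∈ Z, (berLS K A).ddS p q y (b.1 y) = 0) ∧
      haveI := gX.lc
      ((berLS K A[X]).cx gX.cut (p + 1)).Bd (circZ r Z) q
        (c - ((prM K A).pullG (p + 1) q a + (berLS K A[X]).wdG p q ξ ((prM K A).pullG p q b))) := by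
  have := gA.lc
  have := gX.lc
  have hQ : (phi1 gA.cut gX.cut r ξ (circ_xi_ok hr hξ) p).QIso Z :=
    (phi1 gA.cut gX.cut r ξ (circ_xi_ok hr hξ) p).qiso_near hZ fun y _ =>
      phi1_qiso gA.cut gX.cut gA.star gX.star hU hr ξ (circ_xi_ok hr hξ) hξ p y
  obtain ⟨ab, ha1, ha2⟩ := hQ.2 q (((berLS K A[X]).cx gX.cut (p + 1)).cls (circB K A r) q c)
    ((SCx.push_Cl ((berLS K A[X]).cx gX.cut (p + 1)) (properOn_circ (K := K) (A := A) r) Z c).2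
      (((berLS K A[X]).cx_Cl_iff gX.cut (p + 1) (circZ r Z) q c).2 hc))
  have ha3 : Disjoint ((berLS K A).supp ((berLS K A).ddG (p + 1) q ab.1) ∪
    (berLS K A).supp ((berLS K A).ddG p q ab.2)) Z := ha1
  rw [Set.disjoint_union_left] at ha3
  refine ⟨ab.1, ab.2, ((berLS K A).disj_supp _ Z).1 ha3.1, ((berLS K A).disj_supp _ Z).1 ha3.2, ?_⟩
  exact (SCx.push_Bd ((berLS K A[X]).cx gX.cut (p + 1)) (properOn_circ (K := K) (A := A) r) Z
    (c - ((prM K A).pullG (p + 1) q ab.1 +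
      (berLS K A[X]).wdG p q ξ ((prM K A).pullG p q ab.2)))).1 ha2

/-- (F1) existence, type `(0,q+1)`. -/
theorem circ_ex0 (gA : Good K A) (gX : Good K A[X]) (hU : CircU K A r) {Z : Set (Ber K A)}
    (hZ : IsCompact Z) {q : ℕ} (c : (berLS K A[X]).G 0 (q + 1))
    (hc : ∀ z ∈ circZ r Z, (berLS K A[X]).ddS 0 (q + 1) z (c.1 z) = 0) :
    ∃ (a : (berLS K A).G 0 (q + 1)) (e : (berLS K A[X]).G 0 q),
      (∀ y ∈ Z, (berLS K A).ddS 0 (q + 1) y (a.1 y) = 0) ∧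
      ∀ z ∈ circZ r Z, c.1 z = ((prM K A).pullG 0 (q + 1) a).1 z +
        (berLS K A[X]).ddS 0 q z (e.1 z) := by
  have := gX.lc
  obtain ⟨a, ha, hb⟩ := circ_un0 gA gX hU hZ c hc
  obtain ⟨e, he⟩ := ((berLS K A[X]).cx_Bd_succ_iff gX.cut 0 (circZ r Z) q _).1 hb
  refine ⟨a, e, ha, fun z hz => ?_⟩
  have h1 : c.1 z - ((prM K A).pullG 0 (q + 1) a).1 z = (berLS K A[X]).ddS 0 q z (e.1 z) :=
    he z hz
  rw [← h1]
  abel

/-- (F1) existence, type `(p+1,q+1)`. -/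
theorem circ_ex1 (gA : Good K A) (gX : Good K A[X]) (hU : CircU K A r) (hr : 0 < r)
    {Z : Set (Ber K A)} (hZ : IsCompact Z) {p q : ℕ} (c : (berLS K A[X]).G (p + 1) (q + 1))
    (hc : ∀ z ∈ circZ r Z, (berLS K A[X]).ddS (p + 1) (q + 1) z (c.1 z) = 0) :
    ∃ (a : (berLS K A).G (p + 1) (q + 1)) (b : (berLS K A).G p (q + 1))
      (e : (berLS K A[X]).G (p + 1) q),
      (∀ y ∈ Z, (berLS K A).ddS (p + 1) (q + 1) y (a.1 y) = 0) ∧
      (∀ y ∈ Z, (berLS K A).ddS p (q + 1) y (b.1 y) = 0) ∧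
      ∀ z ∈ circZ r Z, ∀ h, c.1 z = ((prM K A).pullG (p + 1) (q + 1) a).1 z +
        (berLS K A[X]).wdS p (q + 1) z ((berLS K A[X]).dlS X h)
          (((prM K A).pullG p (q + 1) b).1 z) +
        (berLS K A[X]).ddS (p + 1) q z (e.1 z) := by
  have := gX.lc
  obtain ⟨ξ, hξ⟩ := exists_xi K A hr
  obtain ⟨a, b, ha, hb, hbd⟩ := circ_un1 gA gX hU hr hξ hZ c hc
  obtain ⟨e, he⟩ := ((berLS K A[X]).cx_Bd_succ_iff gX.cut (p + 1) (circZ r Z) q _).1 hbd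
  refine ⟨a, b, e, ha, hb, fun z hz h => ?_⟩
  have h1 : c.1 z - (((prM K A).pullG (p + 1) (q + 1) a).1 z +
      (berLS K A[X]).wdS p (q + 1) z (ξ.1 z) (((prM K A).pullG p (q + 1) b).1 z)) =
      (berLS K A[X]).ddS (p + 1) q z (e.1 z) := he z hz
  rw [hξ z hz.1 h] at h1
  rw [← h1]
  abel

/-- (F1) existence, type `(0,0)`. -/
theorem circ_cst0 (gA : Good K A) (gX : Good K A[X]) (hU : CircU K A r) {Z : Set (Ber K A)}
    (hZ : IsCompact Z) (c : (berLS K A[X]).G 0 0)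
    (hc : ∀ z ∈ circZ r Z, (berLS K A[X]).ddS 0 0 z (c.1 z) = 0) :
    ∃ a : (berLS K A).G 0 0, (∀ y ∈ Z, (berLS K A).ddS 0 0 y (a.1 y) = 0) ∧
      ∀ z ∈ circZ r Z, c.1 z = ((prM K A).pullG 0 0 a).1 z := by
  have := gX.lc
  obtain ⟨a, ha, hb⟩ := circ_un0 gA gX hU hZ c hc
  refine ⟨a, ha, fun z hz => ?_⟩
  have h1 : c.1 z - ((prM K A).pullG 0 0 a).1 z = 0 :=
    ((berLS K A[X]).cx_Bd_zero_iff gX.cut 0 (circZ r Z) _).1 hb z hz
  exact sub_eq_zero.1 h1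

/-- (F1) existence, type `(p+1,0)`. -/
theorem circ_cst1 (gA : Good K A) (gX : Good K A[X]) (hU : CircU K A r) (hr : 0 < r)
    {Z : Set (Ber K A)} (hZ : IsCompact Z) {p : ℕ} (c : (berLS K A[X]).G (p + 1) 0)
    (hc : ∀ z ∈ circZ r Z, (berLS K A[X]).ddS (p + 1) 0 z (c.1 z) = 0) :
    ∃ (a : (berLS K A).G (p + 1) 0) (b : (berLS K A).G p 0),
      (∀ y ∈ Z, (berLS K A).ddS (p + 1) 0 y (a.1 y) = 0) ∧
      (∀ y ∈ Z, (berLS K A).ddS p 0 y (b.1 y) = 0) ∧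
      ∀ z ∈ circZ r Z, ∀ h, c.1 z = ((prM K A).pullG (p + 1) 0 a).1 z +
        (berLS K A[X]).wdS p 0 z ((berLS K A[X]).dlS X h) (((prM K A).pullG p 0 b).1 z) := by
  have := gX.lc
  obtain ⟨ξ, hξ⟩ := exists_xi K A hr
  obtain ⟨a, b, ha, hb, hbd⟩ := circ_un1 gA gX hU hr hξ hZ c hc
  refine ⟨a, b, ha, hb, fun z hz h => ?_⟩
  have h1 : c.1 z - (((prM K A).pullG (p + 1) 0 a).1 z +
      (berLS K A[X]).wdS p 0 z (ξ.1 z) (((prM K A).pullG p 0 b).1 z)) = 0 :=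
    ((berLS K A[X]).cx_Bd_zero_iff gX.cut (p + 1) (circZ r Z) _).1 hbd z hz
  rw [hξ z hz.1 h] at h1
  exact sub_eq_zero.1 h1

end

end Pool.Agent.TD
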