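import Pool.Agent.TD.F.Defs

/-!
# Block F: constant forms in finitely many coordinates
-/

open scoped ContDiff Topology
open Polynomial

namespace Pool.Agent.TD

namespace Cst

/-! ### Auxiliary lemmas on alternating maps -/

section Alt

variable {E : Type} [NormedAddCommGroup E] [NormedSpace ℝ E]

omit [NormedAddCommGroup E] [NormedSpace ℝ E] in
theorem cons_eta {p : ℕ} (v : Fin (p + 1) → E) : v = Matrix.vecCons (v 0) (fun i => v i.succ) := by
  funext i
  refine Fin.cases rfl (fun j => rfl) i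

theorem map_cons {p : ℕ} (f : E [⋀^Fin (p + 1)]→L[ℝ] ℝ) (a e : E) (c : ℝ) (t : Fin p → E) :
    f (Matrix.vecCons (a + c • e) t) = f (Matrix.vecCons a t) + c * f (Matrix.vecCons e t) := by
  rw [← ContinuousAlternatingMap.curryLeft_apply_apply,
    ← ContinuousAlternatingMap.curryLeft_apply_apply,
    ← ContinuousAlternatingMap.curryLeft_apply_apply, map_add, map_smul]
  rfl

/-- If `h` vanishes when an entry is `e`, multiples of `e` can be added to the entries. -/
theorem add_e : ∀ (p : ℕ) (h : E [⋀^Fin p]→L[ℝ] ℝ) (e : E)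
    (_ : ∀ (v : Fin p → E) (i : Fin p), v i = e → h v = 0) (b : Fin p → E) (c : Fin p → ℝ),
    h (fun i => b i + c i • e) = h b := by
  intro p
  induction p with
  | zero =>
    intro h e _ b c
    congr 1
    exact Subsingleton.elim _ _
  | succ p ih =>
    intro h e he b c
    rw [cons_eta (fun i => b i + c i • e), map_cons]
    have h1 : h (Matrix.vecCons e fun i : Fin p => b i.succ + c i.succ • e) = 0 := he _ 0 rfl
    rw [h1, mul_zero, add_zero, ← ContinuousAlternatingMap.curryLeft_apply_apply,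
      ih (h.curryLeft (b 0)) e ?_ (fun i => b i.succ) (fun i => c i.succ),
      ContinuousAlternatingMap.curryLeft_apply_apply, ← cons_eta b]
    intro v i hv
    rw [ContinuousAlternatingMap.curryLeft_apply_apply]
    exact he _ i.succ hv

theorem swap01 {p : ℕ} (f : E [⋀^Fin (p + 2)]→L[ℝ] ℝ) (a e : E) (t : Fin p → E) :
    f (Matrix.vecCons a (Matrix.vecCons e t)) = -f (Matrix.vecCons e (Matrix.vecCons a t)) := by
  have h := f.toAlternatingMap.map_swap (Matrix.vecCons e (Matrix.vecCons a t))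
    (i := 0) (j := 1) (by simp)
  have h1 : Matrix.vecCons e (Matrix.vecCons a t) ∘ (Equiv.swap (0 : Fin (p + 2)) 1) =
      Matrix.vecCons a (Matrix.vecCons e t) := by
    funext i
    rcases eq_or_ne i 0 with rfl | h0
    · simp
    · rcases eq_or_ne i 1 with rfl | h2
      · simp
      · rw [Function.comp_apply, Equiv.swap_apply_of_ne_of_ne h0 h2]
        obtain ⟨j, rfl⟩ := Fin.exists_succ_eq.2 h0
        have h3 : j ≠ 0 := by
          rintro rfl
          exact h2 rfl
        obtain ⟨l, rfl⟩ := Fin.exists_succ_eq.2 h3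
        rfl
  rw [h1] at h
  exact h

/-- Expansion of an alternating map at the vectors `b i + c i e`. -/
theorem expand : ∀ (p : ℕ) (f : E [⋀^Fin (p + 1)]→L[ℝ] ℝ) (e : E) (b : Fin (p + 1) → E)
    (c : Fin (p + 1) → ℝ), f (fun i => b i + c i • e) = f b +
      ∑ j : Fin (p + 1), (-1 : ℝ) ^ (j : ℕ) * c j *
        f (Matrix.vecCons e (fun i => b (j.succAbove i))) := by
  intro p
  induction p with
  | zero =>
    intro f e b c
    rw [cons_eta (fun i => b i + c i • e), map_cons, Fin.sum_univ_one]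
    have h1 : (fun i : Fin 0 => b i.succ + c i.succ • e) = fun i : Fin 0 => b i.succ :=
      Subsingleton.elim _ _
    have h2 : (fun i : Fin 0 => b ((0 : Fin 1).succAbove i)) = fun i : Fin 0 => b i.succ :=
      Subsingleton.elim _ _
    rw [h1, h2, ← cons_eta b]
    simp
  | succ p ih =>
    intro f e b c
    rw [cons_eta (fun i => b i + c i • e), map_cons]
    have h1 : f (Matrix.vecCons e fun i : Fin (p + 1) => b i.succ + c i.succ • e) =
        f (Matrix.vecCons e fun i : Fin (p + 1) => b i.succ) := by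
      rw [← ContinuousAlternatingMap.curryLeft_apply_apply,
        add_e (p + 1) (f.curryLeft e) e ?_ (fun i => b i.succ) (fun i => c i.succ),
        ContinuousAlternatingMap.curryLeft_apply_apply]
      intro v i hv
      rw [ContinuousAlternatingMap.curryLeft_apply_apply]
      exact f.map_eq_zero_of_eq _ (i := 0) (j := i.succ) (by simpa using hv.symm)
        (Fin.succ_ne_zero i).symm
    have h2 : f (Matrix.vecCons (b 0) fun i : Fin (p + 1) => b i.succ + c i.succ • e) = f b +
        ∑ j : Fin (p + 1), (-1 : ℝ) ^ ((j.succ : Fin (p + 2)) : ℕ) * c j.succ *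
          f (Matrix.vecCons e (fun i => b (j.succ.succAbove i))) := by
      rw [← ContinuousAlternatingMap.curryLeft_apply_apply,
        ih (f.curryLeft (b 0)) e (fun i => b i.succ) (fun i => c i.succ),
        ContinuousAlternatingMap.curryLeft_apply_apply, ← cons_eta b]
      congr 1
      refine Finset.sum_congr rfl fun j _ => ?_
      rw [ContinuousAlternatingMap.curryLeft_apply_apply, swap01]
      have h3 : Matrix.vecCons (b 0) (fun i : Fin p => b (j.succAbove i).succ) =
          fun i => b (j.succ.succAbove i) := by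
        funext i
        refine Fin.cases ?_ (fun l => ?_) i
        · simp
        · simp
      rw [h3, Fin.val_succ, pow_succ]
      ring
    rw [h1, h2, Fin.sum_univ_succ (n := p + 1)]
    have h4 : (fun i : Fin (p + 1) => b ((0 : Fin (p + 2)).succAbove i)) =
        fun i : Fin (p + 1) => b i.succ := by
      funext i
      rw [Fin.succAbove_zero]
    rw [h4]
    simp
    ring

end Alt

variable (n : ℕ)

/-- The inclusion of the hyperplane `x₀ = 0`. -/
def inc : (Fin n → ℝ) →L[ℝ] (Fin (n + 1) → ℝ) :=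
  ContinuousLinearMap.pi fun i => Fin.cases (motive := fun _ => (Fin n → ℝ) →L[ℝ] ℝ) 0
    (fun j => ContinuousLinearMap.proj j) i

theorem inc_zero (y : Fin n → ℝ) : inc n y 0 = 0 := rfl

theorem inc_succ (y : Fin n → ℝ) (j : Fin n) : inc n y j.succ = y j := rfl

/-- The first basis vector. -/
def e0 : Fin (n + 1) → ℝ := fun i => Fin.cases (motive := fun _ => ℝ) 1 (fun _ => 0) i

theorem dec (u : Fin (n + 1) → ℝ) : u = inc n (fun i => u i.succ) + u 0 • e0 n := by
  funext i
  refine Fin.cases ?_ (fun j => ?_) i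
  · rw [Pi.add_apply, Pi.smul_apply, inc_zero]
    change u 0 = 0 + u 0 * 1
    ring
  · rw [Pi.add_apply, Pi.smul_apply, inc_succ]
    change u j.succ = u j.succ + u 0 * 0
    ring

theorem exp_succ {p : ℕ} (γ : (Fin (n + 1) → ℝ) [⋀^Fin (p + 1)]→L[ℝ] ℝ)
    (u : Fin (p + 1) → Fin (n + 1) → ℝ) :
    γ u = γ (fun j => inc n (fun i => u j i.succ)) +
      ∑ j : Fin (p + 1), (-1 : ℝ) ^ (j : ℕ) * u j 0 *
        γ (Matrix.vecCons (e0 n) (fun i => inc n (fun l => u (j.succAbove i) l.succ))) := by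
  have h := expand p γ (e0 n) (fun j => inc n (fun i => u j i.succ)) (fun j => u j 0)
  rw [← h]
  congr 1
  funext j
  exact dec n (u j)

end Cst

section
variable {Φ Φ' : Type} {n p : ℕ}

theorem isCst_cstR (g : Fin n → Φ) (α : (Fin n → ℝ) [⋀^Fin p]→L[ℝ] ℝ) : IsCst (cstR g α) :=
  fun _ _ _ _ => rfl

theorem isSF_cstR [DecidableEq Φ] (g : Fin n → Φ) (α : (Fin n → ℝ) [⋀^Fin p]→L[ℝ] ℝ) :
    IsSF (Finset.univ.image g) (cstR g α) := by
  let r : (↥(Finset.univ.image g : Finset Φ) → ℝ) →L[ℝ] (Fin n → ℝ) :=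
    ContinuousLinearMap.pi fun i => ContinuousLinearMap.proj
      (⟨g i, Finset.mem_image_of_mem g (Finset.mem_univ i)⟩ : (Finset.univ.image g : Finset Φ))
  exact ⟨fun _ => ContinuousAlternatingMap.constOfIsEmptyLIE ℝ
    (↥(Finset.univ.image g : Finset Φ) → ℝ)
    ((↥(Finset.univ.image g : Finset Φ) → ℝ) [⋀^Fin p]→L[ℝ] ℝ) (Fin 0)
    (α.compContinuousLinearMap r), contDiff_const, fun x w v => rfl⟩

/-- Every constant form in the coordinates `g` is of the form `cstR g α`. -/
theorem exists_cstR [DecidableEq Φ] {g : Fin n → Φ} {θ : Raw Φ p 0} (hc : IsCst θ)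
    (hs : IsSF (Finset.univ.image g) θ) : ∃ α, θ = cstR g α := by
  obtain ⟨A, -, hA⟩ := hs
  have hi : ∀ f : (Finset.univ.image g : Finset Φ), ∃ i, g i = f.1 := by
    intro f
    obtain ⟨i, -, hi⟩ := Finset.mem_image.1 f.2
    exact ⟨i, hi⟩
  choose ix hix using hi
  refine ⟨(A 0 ![]).compContinuousLinearMap (ContinuousLinearMap.pi fun f =>
    ContinuousLinearMap.proj (ix f)), ?_⟩
  funext x w v
  rw [hc x 0 w v, hA]
  change A (rs _ 0) (fun i => rs _ (w i)) (fun j => rs _ (v j)) =
    A 0 ![] (fun j f => v j (g (ix f)))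
  have e1 : (fun i => rs (Finset.univ.image g) (w i)) = ![] := Subsingleton.elim _ _
  have e2 : (fun j => rs (Finset.univ.image g) (v j)) = fun j f => v j (g (ix f)) := by
    funext j f
    rw [hix]
    rfl
  rw [e1, e2]
  rfl

theorem pullR_cstR (φ : Φ' → Φ) (g : Fin n → Φ') (α : (Fin n → ℝ) [⋀^Fin p]→L[ℝ] ℝ) :
    pullR φ (cstR g α) = cstR (fun i => φ (g i)) α := rfl

/-- Decomposition of constant forms with respect to the first coordinate, degree `p + 1`. -/
theorem cstR_succ (γ : (Fin (n + 1) → ℝ) [⋀^Fin (p + 1)]→L[ℝ] ℝ) :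
    ∃ (α : (Fin n → ℝ) [⋀^Fin (p + 1)]→L[ℝ] ℝ) (β : (Fin n → ℝ) [⋀^Fin p]→L[ℝ] ℝ),
      (∀ g : Fin (n + 1) → Φ, cstR g γ = cstR (fun i => g i.succ) α +
        wdg1 (dlg (g 0)) (cstR (fun i => g i.succ) β)) ∧ (α = 0 → β = 0 → γ = 0) := by
  refine ⟨γ.compContinuousLinearMap (Cst.inc n),
    (γ.curryLeft (Cst.e0 n)).compContinuousLinearMap (Cst.inc n), ?_, ?_⟩
  · intro g
    funext x w v
    exact Cst.exp_succ n γ (fun j i => v j (g i))
  · intro ha hb
    ext u
    have h := Cst.exp_succ n γ u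
    have h1 : ∀ u : Fin (p + 1) → Fin n → ℝ, γ (fun j => Cst.inc n (u j)) = 0 := fun u =>
      DFunLike.congr_fun ha u
    have h2 : ∀ u : Fin p → Fin n → ℝ,
        γ (Matrix.vecCons (Cst.e0 n) (fun j => Cst.inc n (u j))) = 0 := fun u =>
      DFunLike.congr_fun hb u
    rw [h, h1, Finset.sum_eq_zero fun j _ => by rw [h2, mul_zero], add_zero]
    rfl

/-- The same in degree `0`. -/
theorem cstR_zero (γ : (Fin (n + 1) → ℝ) [⋀^Fin 0]→L[ℝ] ℝ) :
    ∃ α : (Fin n → ℝ) [⋀^Fin 0]→L[ℝ] ℝ,
      (∀ g : Fin (n + 1) → Φ, cstR g γ = cstR (fun i => g i.succ) α) ∧ (α = 0 → γ = 0) := by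
  refine ⟨γ.compContinuousLinearMap (Cst.inc n), ?_, ?_⟩
  · intro g
    funext x w v
    exact congrArg γ (Subsingleton.elim _ _)
  · intro ha
    ext u
    have h : γ.compContinuousLinearMap (Cst.inc n) ![] = 0 := DFunLike.congr_fun ha _
    change γ u = 0
    rw [← h]
    exact congrArg γ (Subsingleton.elim _ _)

end

namespace LogSpace

variable {X Φ : Type} [TopologicalSpace X] (L : LogSpace X Φ) {n p : ℕ} {z : X}

theorem sfat_cstR {g : Fin n → Φ} (h : ∀ i, z ∈ L.dom (g i))
    (α : (Fin n → ℝ) [⋀^Fin p]→L[ℝ] ℝ) : L.SFat z (cstR g α) := by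
  classical
  refine ⟨Finset.univ.image g, isSF_cstR g α, ?_⟩
  intro f hf
  obtain ⟨i, -, rfl⟩ := Finset.mem_image.1 hf
  exact h i

end LogSpace

end Pool.Agent.TD
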