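import Pool.Agent.TD.A3
import Pool.Agent.TD.T.Basic

/-!
# Block F: the fibration `M(A[X]) → M(A)` near a circle `{|X| = r}` (MP_90358a_ag), definitions
-/

open scoped ContDiff Topology
open Polynomial

namespace Pool.Agent.TD

/-! ### The identity, isomorphisms -/

namespace Mor

variable {X Φ : Type} [TopologicalSpace X]

/-- The identity morphism. -/
def id (L : LogSpace X Φ) : Mor L L where
  toFun := _root_.id
  cont := continuous_id
  ix := _root_.id
  dom_sub _ _ h := h
  lf_eq _ _ _ := rfl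

end Mor

/-- The morphism `M(B) → M(A)` of spaces with log functions induced by a homomorphism. -/
noncomputable def berM {K A B : Type} [NormedField K] [CommRing A] [Algebra K A] [CommRing B]
    [Algebra K B] (φ : A →ₐ[K] B) : Mor (berLS K B) (berLS K A) where
  toFun := Ber.res φ
  cont := Ber.res_continuous φ
  ix := φ
  dom_sub _ _ h := h
  lf_eq _ _ _ := rfl

/-- The projection `M(A[X]) → M(A)`. -/
noncomputable def prM (K A : Type) [NormedField K] [CommRing A] [Algebra K A] :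
    Mor (berLS K A[X]) (berLS K A) :=
  berM ((Polynomial.CAlgHom (R := A) (A := A)).restrictScalars K)

section
variable {K A : Type} [NormedField K] [CommRing A] [Algebra K A]

theorem prM_v (z : Ber K A[X]) (a : A) : ((prM K A).toFun z).v a = z.v (C a) := rfl

/-- The circle bundle `{|X| = r}` in `M(A[X])`. -/
def circB (K A : Type) [NormedField K] [CommRing A] [Algebra K A] (r : ℝ) : Set (Ber K A[X]) :=
  {z | z.v X = r}

theorem dom_of_circ {r : ℝ} (hr : 0 < r) {z : Ber K A[X]} (hz : z ∈ circB K A r) :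
    z ∈ (berLS K A[X]).dom (X : A[X]) := by
  have h : z.v X = r := hz
  show z.v X ≠ 0
  rw [h]
  exact hr.ne'

end

/-! ### Constant forms in finitely many coordinates -/

/-- The constant form of type `(p,0)` in the coordinates `g` with coefficients `α`. -/
def cstR {Φ : Type} {n p : ℕ} (g : Fin n → Φ) (α : (Fin n → ℝ) [⋀^Fin p]→L[ℝ] ℝ) :
    Raw Φ p 0 := fun _ _ v => α (fun j i => v j (g i))

/-! ### The interface to block U -/

/-- (U) forms of type `(p,0)` which are closed near the fibre of the circle `{|X| = r}` over a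
point `y` of `M(A)`. -/
structure CircU (K A : Type) [NormedField K] [CommRing A] [Algebra K A] (r : ℝ) : Prop where
  ex0 : ∀ (y : Ber K A) (c : (berLS K A[X]).G 0 0),
    (∀ z ∈ circB K A r, (prM K A).toFun z = y → (berLS K A[X]).ddS 0 0 z (c.1 z) = 0) →
    ∃ a : (berLS K A).G 0 0, (berLS K A).ddS 0 0 y (a.1 y) = 0 ∧
      ∀ z ∈ circB K A r, (prM K A).toFun z = y → c.1 z = ((prM K A).pullG 0 0 a).1 z
  ex1 : ∀ (p : ℕ) (y : Ber K A) (c : (berLS K A[X]).G (p + 1) 0),
    (∀ z ∈ circB K A r, (prM K A).toFun z = y → (berLS K A[X]).ddS (p + 1) 0 z (c.1 z) = 0) →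
    ∃ (a : (berLS K A).G (p + 1) 0) (b : (berLS K A).G p 0),
      (berLS K A).ddS (p + 1) 0 y (a.1 y) = 0 ∧ (berLS K A).ddS p 0 y (b.1 y) = 0 ∧
      ∀ z ∈ circB K A r, ∀ h : z ∈ (berLS K A[X]).dom (X : A[X]), (prM K A).toFun z = y →
        c.1 z = ((prM K A).pullG (p + 1) 0 a).1 z +
          (berLS K A[X]).wdS p 0 z ((berLS K A[X]).dlS X h) (((prM K A).pullG p 0 b).1 z)
  inj0 : ∀ (y : Ber K A) (a : (berLS K A).G 0 0), (berLS K A).ddS 0 0 y (a.1 y) = 0 →
    (∀ z ∈ circB K A r, (prM K A).toFun z = y → ((prM K A).pullG 0 0 a).1 z = 0) → a.1 y = 0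
  inj1 : ∀ (p : ℕ) (y : Ber K A) (a : (berLS K A).G (p + 1) 0) (b : (berLS K A).G p 0),
    (berLS K A).ddS (p + 1) 0 y (a.1 y) = 0 → (berLS K A).ddS p 0 y (b.1 y) = 0 →
    (∀ z ∈ circB K A r, ∀ h : z ∈ (berLS K A[X]).dom (X : A[X]), (prM K A).toFun z = y →
      ((prM K A).pullG (p + 1) 0 a).1 z +
        (berLS K A[X]).wdS p 0 z ((berLS K A[X]).dlS X h) (((prM K A).pullG p 0 b).1 z) = 0) →
    a.1 y = 0 ∧ b.1 y = 0

end Pool.Agent.TD
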