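import Pool.Agent.TD.F.Poly
import Pool.Agent.TD.F.Bridge
import Pool.Agent.TD.Y.Final

/-!
# Block F: (F2) in the form used by block Y, stage 1
-/

open scoped ContDiff Topology
open Polynomial

namespace Pool.Agent.TD

/-- (F2) -/
theorem f2 (K : Type) [NormedField K] [IsUltrametricDist K] : F2 K := fun n =>
  torP_mvPolynomial K (fun A _ _ _ => good_of_finiteType K A)
    (fun A _ _ _ _ r hr => circU K A r hr) n

end Pool.Agent.TD
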