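import Pool.Agent.TD.F.Cst
import Pool.Agent.TD.F.Iso

/-!
# Block F: the property of tori
-/

open scoped ContDiff Topology
open Polynomial

namespace Pool.Agent.TD

section
variable (K : Type) {B : Type} [NormedField K] [CommRing B] [Algebra K B] {n : ℕ}

/-- The torus `{|g_i| = exp b_i}`. -/
def torS (g : Fin n → B) (b : Fin n → ℝ) : Set (Ber K B) := {z | ∀ i, z.v (g i) = Real.exp (b i)}

/-- (F2) The closed forms near the tori `{|g_i| = exp b_i}` are exact up to constant forms. -/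
structure TorP (g : Fin n → B) : Prop where
  compact : ∀ b, IsCompact (torS K g b)
  ex : ∀ (b : Fin n → ℝ) (p q : ℕ) (c : (berLS K B).G p (q + 1)),
    (∀ z ∈ torS K g b, (berLS K B).ddS p (q + 1) z (c.1 z) = 0) →
    ∃ e : (berLS K B).G p q, ∀ z ∈ torS K g b, c.1 z = (berLS K B).ddS p q z (e.1 z)
  cst : ∀ (b : Fin n → ℝ) (p : ℕ) (c : (berLS K B).G p 0),
    (∀ z ∈ torS K g b, (berLS K B).ddS p 0 z (c.1 z) = 0) →
    ∃ α : (Fin n → ℝ) [⋀^Fin p]→L[ℝ] ℝ, ∀ z ∈ torS K g b,
      ∃ h : (berLS K B).SFat z (cstR g α), c.1 z = (berLS K B).germ (cstR g α) h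
  uniq : ∀ (b : Fin n → ℝ) (p : ℕ) (α : (Fin n → ℝ) [⋀^Fin p]→L[ℝ] ℝ),
    (∀ z ∈ torS K g b, (berLS K B).Van z (cstR g α)) → α = 0

end

section
variable {K : Type} {B B' : Type} [NormedField K] [CommRing B] [Algebra K B] [CommRing B']
  [Algebra K B'] {n : ℕ}

theorem torS_dom {g : Fin n → B} {b : Fin n → ℝ} {z : Ber K B} (hz : z ∈ torS K g b) (i : Fin n) :
    z ∈ (berLS K B).dom (g i) := by
  show z.v (g i) ≠ 0
  rw [hz i]
  exact (Real.exp_pos _).ne'

/-- Transport along an isomorphism. -/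
theorem TorP.iso {g : Fin n → B} (h : TorP K g) (e : B ≃ₐ[K] B') :
    TorP K (fun i => e (g i)) := by
  -- the two mutually inverse morphisms
  let m : Mor (berLS K B') (berLS K B) := berM (e : B →ₐ[K] B')
  let m' : Mor (berLS K B) (berLS K B') := berM (e.symm : B' →ₐ[K] B)
  have hmv : ∀ (z : Ber K B') (x : B), (m.toFun z).v x = z.v (e x) := fun _ _ => rfl
  have hm'v : ∀ (y : Ber K B) (x : B'), (m'.toFun y).v x = y.v (e.symm x) := fun _ _ => rfl
  have hmem : ∀ (b : Fin n → ℝ) (z : Ber K B'), z ∈ torS K (fun i => e (g i)) b →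
      m.toFun z ∈ torS K g b := fun b z hz i => hz i
  have hmem' : ∀ (b : Fin n → ℝ) (y : Ber K B), y ∈ torS K g b →
      m'.toFun y ∈ torS K (fun i => e (g i)) b := by
    intro b y hy i
    show y.v (e.symm (e (g i))) = _
    rw [e.symm_apply_apply]
    exact hy i
  have hclosed : ∀ (b : Fin n → ℝ) (p q : ℕ) (c : (berLS K B').G p q),
      (∀ z ∈ torS K (fun i => e (g i)) b, (berLS K B').ddS p q z (c.1 z) = 0) →
      ∀ y ∈ torS K g b, (berLS K B).ddS p q y ((m'.pullG p q c).1 y) = 0 := by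
    intro b p q c hc y hy
    rw [Mor.pullG_val]
    have h1 := m'.pullS_ddS (z := y) (c.1 (m'.toFun y))
    rw [hc _ (hmem' b y hy), map_zero] at h1
    exact h1.symm
  have hback : ∀ (p q : ℕ) (c : (berLS K B').G p q), m.pullG p q (m'.pullG p q c) = c :=
    fun p q c => berM_pull_inv e c
  refine ⟨?_, ?_, ?_, ?_⟩
  · intro b
    have h1 : torS K (fun i => e (g i)) b = m.toFun ⁻¹' torS K g b := rfl
    rw [h1]
    exact ((berM_homeo e).homeomorph.isCompact_preimage).2 (h.compact b)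
  · intro b p q c hc
    obtain ⟨f, hf⟩ := h.ex b p q (m'.pullG p (q + 1) c) (hclosed b p (q + 1) c hc)
    refine ⟨m.pullG p q f, ?_⟩
    intro z hz
    have h1 := hf _ (hmem b z hz)
    have h2 : c.1 z = m.pullS p (q + 1) z ((m'.pullG p (q + 1) c).1 (m.toFun z)) := by
      rw [← Mor.pullG_val, hback]
    rw [h2, h1, Mor.pullG_val]
    exact m.pullS_ddS (z := z) (f.1 (m.toFun z))
  · intro b p c hc
    obtain ⟨α, hα⟩ := h.cst b p (m'.pullG p 0 c) (hclosed b p 0 c hc)
    refine ⟨α, ?_⟩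
    intro z hz
    obtain ⟨h1, h3⟩ := hα _ (hmem b z hz)
    refine ⟨m.sfat h1, ?_⟩
    have h2 : c.1 z = m.pullS p 0 z ((m'.pullG p 0 c).1 (m.toFun z)) := by
      rw [← Mor.pullG_val, hback]
    rw [h2, h3]
    exact m.pullS_germ h1
  · intro b p α hα
    refine h.uniq b p α ?_
    intro y hy
    have h1 := m'.van (z := y) (hα _ (hmem' b y hy))
    have h2 : pullR m'.ix (cstR (fun i => e (g i)) α) = cstR g α := by
      rw [pullR_cstR]
      congr 1
      funext i
      exact e.symm_apply_apply (g i)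
    rw [h2] at h1
    exact h1

end

end Pool.Agent.TD
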