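import Pool.Agent.TD.F.Lift
import Pool.Agent.TD.F.Tor
import Pool.Agent.TD.F.Hom

/-!
# Block F, (F2): Laurent polynomial rings
-/

open scoped ContDiff Topology

namespace Pool.Agent.TD

section
variable {K B B' : Type} [NormedField K] [CommRing B] [Algebra K B] [CommRing B']
  [Algebra K B'] {n : ℕ} {g : Fin n → B}

/-- The monomial with exponents `k`. -/
def laurG (g : Fin n → B) (k : Fin n → ℕ) : B := ∏ i, g i ^ k i

theorem laurG_zero : laurG g 0 = 1 := by
  simp [laurG]

theorem laurG_add (k k' : Fin n → ℕ) : laurG g (k + k') = laurG g k * laurG g k' := by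
  simp only [laurG, Pi.add_apply, pow_add]
  rw [Finset.prod_mul_distrib]

theorem laur_v (z : Ber K B) (k : Fin n → ℕ) : z.v (laurG g k) = ∏ i, z.v (g i) ^ k i := by
  unfold laurG
  rw [z.prod]
  exact Finset.prod_congr rfl fun i _ => z.pow _ _

theorem laur_v_ne {z : Ber K B} (hz : ∀ i, z.v (g i) ≠ 0) (k : Fin n → ℕ) :
    z.v (laurG g k) ≠ 0 := by
  rw [laur_v]
  exact Finset.prod_ne_zero_iff.2 fun i _ => pow_ne_zero _ (hz i)

theorem laur_unit (z : Ber K B) {u : B} (hu : IsUnit u) : z.v u ≠ 0 := by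
  obtain ⟨u, rfl⟩ := hu
  intro h
  have h1 : z.v ((u : B) * (↑u⁻¹ : B)) = 1 := by rw [Units.mul_inv, z.one]
  rw [z.mul, h, zero_mul] at h1
  exact zero_ne_one h1

/-- The set where the coordinates do not vanish. -/
def laurU (K : Type) {B : Type} [NormedField K] [CommRing B] [Algebra K B] {n : ℕ}
    (g : Fin n → B) : Set (Ber K B) := {z | ∀ i, z.v (g i) ≠ 0}

theorem laurU_open (g : Fin n → B) : IsOpen (laurU K g) := by
  have h : laurU K g = ⋂ i, {z : Ber K B | z.v (g i) ≠ 0} := by
    ext z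
    simp [laurU]
  rw [h]
  exact isOpen_iInter_of_finite fun i => isOpen_ne_fun (Ber.continuous_v _) continuous_const

variable {φ : B →ₐ[K] B'} (hinj : Function.Injective φ)
  {kk : B' → Fin n → ℕ} {ff : B' → B} (hf : ∀ f, f * φ (laurG g (kk f)) = φ (ff f))

include hinj hf in
theorem laur_eq {z : Ber K B} (hz : ∀ i, z.v (g i) ≠ 0) {f : B'} {k : Fin n → ℕ} {f' : B}
    (h : f * φ (laurG g k) = φ f') :
    z.v (ff f) / z.v (laurG g (kk f)) = z.v f' / z.v (laurG g k) := by
  rw [div_eq_div_iff (laur_v_ne hz _) (laur_v_ne hz _), ← z.mul, ← z.mul]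
  congr 1
  apply hinj
  rw [map_mul, map_mul, ← hf f, ← h]
  ring

/-- The extension of a point to the localization. -/
noncomputable def laurS (z : Ber K B) (hz : ∀ i, z.v (g i) ≠ 0) : Ber K B' where
  v f := z.v (ff f) / z.v (laurG g (kk f))
  nonneg f := div_nonneg (z.nonneg _) (z.nonneg _)
  one := by
    rw [laur_eq hinj hf hz (f := 1) (k := 0) (f' := 1) (by
      rw [laurG_zero, map_one, mul_one]), laurG_zero, z.one, div_one]
  mul a b := by
    rw [laur_eq hinj hf hz (f := a * b) (k := kk a + kk b) (f' := ff a * ff b) (by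
      rw [laurG_add, map_mul, map_mul, ← hf a, ← hf b]
      ring), laurG_add, z.mul, z.mul, mul_div_mul_comm]
  add a b := by
    have e := laur_eq hinj hf hz (f := a + b) (k := kk a + kk b)
      (f' := ff a * laurG g (kk b) + ff b * laurG g (kk a)) (by
      rw [laurG_add, map_add, map_mul, map_mul, map_mul, ← hf a, ← hf b]
      ring)
    rw [e, laurG_add, z.mul]
    have ha := laur_v_ne hz (kk a)
    have hb := laur_v_ne hz (kk b)
    have hpos : 0 < z.v (laurG g (kk a)) * z.v (laurG g (kk b)) :=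
      mul_pos (lt_of_le_of_ne (z.nonneg _) ha.symm) (lt_of_le_of_ne (z.nonneg _) hb.symm)
    rw [div_le_iff₀ hpos]
    refine (z.add _ _).trans ?_
    rw [z.mul, z.mul]
    apply max_le
    · calc z.v (ff a) * z.v (laurG g (kk b)) = z.v (ff a) / z.v (laurG g (kk a)) *
            (z.v (laurG g (kk a)) * z.v (laurG g (kk b))) := by
            field_simp
        _ ≤ _ := mul_le_mul_of_nonneg_right (le_max_left _ _) hpos.le
    · calc z.v (ff b) * z.v (laurG g (kk a)) = z.v (ff b) / z.v (laurG g (kk b)) *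
            (z.v (laurG g (kk a)) * z.v (laurG g (kk b))) := by
            field_simp
        _ ≤ _ := mul_le_mul_of_nonneg_right (le_max_right _ _) hpos.le
  ext c := by
    rw [laur_eq hinj hf hz (f := algebraMap K B' c) (k := 0) (f' := algebraMap K B c) (by
      rw [laurG_zero, map_one, mul_one, φ.commutes]), laurG_zero, z.one, div_one, z.ext]

theorem laurS_res (z : Ber K B) (hz : ∀ i, z.v (g i) ≠ 0) :
    (berM φ).toFun (laurS hinj hf z hz) = z := by
  apply Ber.ext_v
  intro a
  show z.v (ff (φ a)) / z.v (laurG g (kk (φ a))) = z.v a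
  rw [laur_eq hinj hf hz (f := φ a) (k := 0) (f' := a) (by
    rw [laurG_zero, map_one, mul_one]), laurG_zero, z.one, div_one]

include hf in
theorem laur_inj (hu : ∀ i, IsUnit (φ (g i))) :
    Function.Injective (berM φ : Mor (berLS K B') (berLS K B)).toFun := by
  intro z1 z2 h
  apply Ber.ext_v
  intro f
  have hv : ∀ a, z1.v (φ a) = z2.v (φ a) := fun a => congrArg (fun z : Ber K B => z.v a) h
  have hne : ∀ i, ((berM φ).toFun z1 : Ber K B).v (g i) ≠ 0 := fun i => laur_unit z1 (hu i)
  have h1 : z1.v f * z1.v (φ (laurG g (kk f))) = z1.v (φ (ff f)) := by rw [← z1.mul, hf]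
  have h2 : z2.v f * z2.v (φ (laurG g (kk f))) = z2.v (φ (ff f)) := by rw [← z2.mul, hf]
  have h3 : z1.v (φ (laurG g (kk f))) ≠ 0 := laur_v_ne hne (kk f)
  rw [← hv, ← hv, ← h1] at h2
  exact (mul_right_cancel₀ h3 h2).symm

/-- The extension as a function on the open set. -/
noncomputable def laurT (u : laurU K g) : Ber K B' := laurS hinj hf u.1 u.2

theorem laurT_continuous : Continuous (laurT hinj hf : laurU K g → Ber K B') := by
  rw [Ber.continuous_iff]
  intro f
  show Continuous fun u : laurU K g => u.1.v (ff f) / u.1.v (laurG g (kk f))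
  refine Continuous.div ?_ ?_ ?_
  · exact (Ber.continuous_v _).comp continuous_subtype_val
  · exact (Ber.continuous_v _).comp continuous_subtype_val
  · intro u
    exact laur_v_ne u.2 _

theorem laur_mem (hu : ∀ i, IsUnit (φ (g i))) (z : Ber K B') :
    (berM φ).toFun z ∈ laurU K g := fun i => laur_unit z (hu i)

include hinj hf in
theorem laur_open (hu : ∀ i, IsUnit (φ (g i))) (z : Ber K B') (V : Set (Ber K B'))
    (hV : V ∈ 𝓝 z) : (berM φ : Mor (berLS K B') (berLS K B)).toFun '' V ∈
      𝓝 ((berM φ : Mor (berLS K B') (berLS K B)).toFun z) := by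
  have e : laurT hinj hf ⟨(berM φ).toFun z, laur_mem hu z⟩ = z := by
    apply laur_inj hf hu
    exact laurS_res hinj hf _ _
  have h1 : laurT hinj hf ⁻¹' V ∈ 𝓝 (⟨(berM φ).toFun z, laur_mem hu z⟩ : laurU K g) := by
    apply (laurT_continuous hinj hf).continuousAt
    rw [e]
    exact hV
  have h2 : Subtype.val '' (laurT hinj hf ⁻¹' V) ∈
      𝓝 ((⟨(berM φ).toFun z, laur_mem hu z⟩ : laurU K g) : Ber K B) :=
    (laurU_open g).isOpenEmbedding_subtypeVal.image_mem_nhds.2 h1
  refine Filter.mem_of_superset h2 ?_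
  rintro _ ⟨u, hu', rfl⟩
  exact ⟨laurT hinj hf u, hu', laurS_res hinj hf _ _⟩

include hf in
theorem laur_aff (hu : ∀ i, IsUnit (φ (g i))) (z : Ber K B') :
    (berM φ : Mor (berLS K B') (berLS K B)).AffAt z := by
  intro f hz
  have hz' : z.v f ≠ 0 := hz
  have hun : ∀ (z' : Ber K B') i, z'.v (φ (g i)) ≠ 0 := fun z' i => laur_unit z' (hu i)
  have hval : ∀ z' : Ber K B', z'.v (φ (ff f)) = z'.v f * ∏ i, z'.v (φ (g i)) ^ kk f i := by
    intro z'
    rw [← hf, z'.mul]
    congr 1
    exact laur_v ((berM φ).toFun z') (kk f)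
  have hprod : ∀ z' : Ber K B', ∏ i, z'.v (φ (g i)) ^ kk f i ≠ 0 := fun z' =>
    Finset.prod_ne_zero_iff.2 fun i _ => pow_ne_zero _ (hun z' i)
  refine ⟨n + 1, Fin.cons (ff f) g, Fin.cons 1 fun i => -(kk f i : ℝ), 0, ?_, ?_⟩
  · intro i
    refine Fin.cases ?_ (fun i => ?_) i
    · show z.v (φ (ff f)) ≠ 0
      rw [hval]
      exact mul_ne_zero hz' (hprod z)
    · show z.v (φ (g i)) ≠ 0
      exact hun z i
  · filter_upwards [((berLS K B').isOpen_dom f).mem_nhds hz] with z' h1
    have h1' : z'.v f ≠ 0 := h1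
    rw [Fin.sum_univ_succ]
    simp only [Fin.cons_zero, Fin.cons_succ]
    show Real.log (z'.v f) = 0 + (1 * Real.log (z'.v (φ (ff f))) +
      ∑ i, -(kk f i : ℝ) * Real.log (z'.v (φ (g i))))
    rw [hval, Real.log_mul h1' (hprod z'), Real.log_prod fun i _ => pow_ne_zero _ (hun z' i)]
    simp only [Real.log_pow, neg_mul, Finset.sum_neg_distrib]
    ring

end

/-- Localization: `B'` is generated over `B` by the inverses of the coordinates. -/
theorem TorP.loc {K B B' : Type} [NormedField K] [CommRing B] [Algebra K B] [CommRing B']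
    [Algebra K B'] {n : ℕ} {g : Fin n → B} (gB : Good K B) (h : TorP K g) (φ : B →ₐ[K] B')
    (hinj : Function.Injective φ) (hu : ∀ i, IsUnit (φ (g i)))
    (hloc : ∀ f : B', ∃ (k : Fin n → ℕ) (f' : B), f * φ (∏ i, g i ^ k i) = φ f') :
    TorP K (fun i => φ (g i)) := by
  have := gB.lc
  choose kk ff hf using hloc
  have hf : ∀ f, f * φ (laurG g (kk f)) = φ (ff f) := hf
  have hi := laur_inj hf hu
  have ho := laur_open hinj hf hu
  have ha := laur_aff hf hu
  have hmem : ∀ (b : Fin n → ℝ) (z : Ber K B), z ∈ torS K g b →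
      ∃ z' ∈ torS K (fun i => φ (g i)) b, (berM φ).toFun z' = z := by
    intro b z hz
    have hz' : ∀ i, z.v (g i) ≠ 0 := fun i => by
      rw [hz i]
      exact (Real.exp_pos _).ne'
    refine ⟨laurS hinj hf z hz', fun i => ?_, laurS_res hinj hf z hz'⟩
    have e := laurS_res hinj hf z hz'
    have e2 : (laurS hinj hf z hz').v (φ (g i)) = z.v (g i) :=
      congrArg (fun w : Ber K B => w.v (g i)) e
    rw [e2]
    exact hz i
  have hcomp : ∀ b, IsCompact (torS K (fun i => φ (g i)) b) := by
    intro b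
    have h1 : IsCompact (Subtype.val ⁻¹' (torS K g b) : Set (laurU K g)) := by
      rw [Subtype.isCompact_iff, Subtype.image_preimage_coe]
      have h2 : laurU K g ∩ torS K g b = torS K g b := by
        apply Set.inter_eq_right.2
        intro z hz i
        rw [hz i]
        exact (Real.exp_pos _).ne'
      rw [h2]
      exact h.compact b
    have h2 := h1.image (laurT_continuous hinj hf)
    have h3 : laurT hinj hf '' (Subtype.val ⁻¹' (torS K g b)) =
        torS K (fun i => φ (g i)) b := by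
      ext z
      constructor
      · rintro ⟨u, hu', rfl⟩ i
        have e := laurS_res hinj hf u.1 u.2
        have e2 : (laurT hinj hf u).v (φ (g i)) = u.1.v (g i) :=
          congrArg (fun w : Ber K B => w.v (g i)) e
        rw [e2]
        exact hu' i
      · intro hz
        refine ⟨⟨(berM φ).toFun z, laur_mem hu z⟩, fun i => hz i, ?_⟩
        apply hi
        exact laurS_res hinj hf _ _
    rw [← h3]
    exact h2
  refine ⟨hcomp, fun b p q c hc => ?_, fun b p c hc => ?_, fun b p α hα => ?_⟩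
  · obtain ⟨d, hd⟩ := (berM φ).exists_lift hi ho ha gB.cut (hcomp b) c
    obtain ⟨e, he⟩ := h.ex b p q d (by
      intro z hz
      obtain ⟨z', hz', rfl⟩ := hmem b z hz
      apply (berM φ).pullS_injective (ha z') (ho z')
      rw [Mor.pullS_ddS, map_zero]
      have e1 : (berM φ).pullS p (q + 1) z' (d.1 ((berM φ).toFun z')) = c.1 z' := hd z' hz'
      rw [e1]
      exact hc z' hz')
    refine ⟨(berM φ).pullG p q e, fun z' hz' => ?_⟩
    have e1 : (berM φ).pullS p (q + 1) z' (d.1 ((berM φ).toFun z')) = c.1 z' := hd z' hz'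
    rw [← e1, he _ (show (berM φ).toFun z' ∈ torS K g b from fun i => hz' i), Mor.pullS_ddS]
    rfl
  · obtain ⟨d, hd⟩ := (berM φ).exists_lift hi ho ha gB.cut (hcomp b) c
    obtain ⟨α, hα⟩ := h.cst b p d (by
      intro z hz
      obtain ⟨z', hz', rfl⟩ := hmem b z hz
      apply (berM φ).pullS_injective (ha z') (ho z')
      rw [Mor.pullS_ddS, map_zero]
      have e1 : (berM φ).pullS p 0 z' (d.1 ((berM φ).toFun z')) = c.1 z' := hd z' hz'
      rw [e1]
      exact hc z' hz')
    refine ⟨α, fun z' hz' => ?_⟩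
    obtain ⟨h1, h2⟩ := hα _ (show (berM φ).toFun z' ∈ torS K g b from fun i => hz' i)
    have e1 : (berM φ).pullS p 0 z' (d.1 ((berM φ).toFun z')) = c.1 z' := hd z' hz'
    refine ⟨(berM φ).sfat h1, ?_⟩
    rw [← e1, h2]
    rfl
  · apply h.uniq b p α
    intro z hz
    obtain ⟨z', hz', rfl⟩ := hmem b z hz
    have h1 : (berLS K B).SFat ((berM φ).toFun z') (cstR g α) :=
      (berLS K B).sfat_cstR (fun i => torS_dom hz i) α
    rw [← (berLS K B).germ_eq_zero h1]
    apply (berM φ).pullS_injective (ha z') (ho z')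
    rw [map_zero, Mor.pullS_germ, LogSpace.germ_eq_zero]
    exact hα z' hz'

/-- The coordinates of the Laurent polynomial ring. -/
noncomputable def laurVar (K : Type) [NormedField K] (n : ℕ) (i : Fin n) :
    AddMonoidAlgebra K (Fin n → ℤ) := AddMonoidAlgebra.single (Pi.single i 1) 1

theorem laurVar_unit (K : Type) [NormedField K] (n : ℕ) (i : Fin n) :
    IsUnit (laurVar K n i) := by
  refine IsUnit.of_mul_eq_one (AddMonoidAlgebra.single (-(Pi.single i 1 : Fin n → ℤ)) 1) ?_
  unfold laurVar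
  rw [AddMonoidAlgebra.single_mul_single, add_neg_cancel, mul_one]
  rfl

/-- The exponents as integers. -/
def laurJ (n : ℕ) : (Fin n →₀ ℕ) →+ (Fin n → ℤ) where
  toFun s i := s i
  map_zero' := by
    funext i
    simp
  map_add' s t := by
    funext i
    simp

theorem laurJ_inj (n : ℕ) : Function.Injective (laurJ n) := by
  intro s t h
  ext i
  have h1 : ((s i : ℕ) : ℤ) = ((t i : ℕ) : ℤ) := congrFun h i
  exact_mod_cast h1

theorem laur_aeval (K : Type) [NormedField K] (n : ℕ) :
    (MvPolynomial.aeval (laurVar K n) : MvPolynomial (Fin n) K →ₐ[K] _) =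
      AddMonoidAlgebra.mapDomainAlgHom K K (laurJ n) := by
  apply MvPolynomial.algHom_ext
  intro i
  rw [MvPolynomial.aeval_X]
  show AddMonoidAlgebra.single (Pi.single i 1) 1 = AddMonoidAlgebra.mapDomain (laurJ n)
    (AddMonoidAlgebra.single (Finsupp.single i 1) 1)
  rw [AddMonoidAlgebra.mapDomain_single]
  congr 1
  funext j
  show (Pi.single i 1 : Fin n → ℤ) j = ((Finsupp.single i 1 : Fin n →₀ ℕ) j : ℤ)
  rw [Finsupp.single_apply, Pi.single_apply]
  by_cases h : i = j
  · subst h
    simp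
  · rw [if_neg h, if_neg (Ne.symm h)]
    simp

theorem laur_aeval_inj (K : Type) [NormedField K] (n : ℕ) : Function.Injective
    (MvPolynomial.aeval (laurVar K n) : MvPolynomial (Fin n) K →ₐ[K] _) := by
  rw [laur_aeval]
  exact AddMonoidAlgebra.mapDomain_injective (laurJ_inj n)

theorem laur_monomial (K : Type) [NormedField K] (n : ℕ) (s : Fin n →₀ ℕ) (c : K) :
    MvPolynomial.aeval (laurVar K n) (MvPolynomial.monomial s c) =
      AddMonoidAlgebra.single (fun i => (s i : ℤ)) c := by
  rw [laur_aeval]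
  exact AddMonoidAlgebra.mapDomain_single

theorem laur_prod (K : Type) [NormedField K] (n : ℕ) (k : Fin n → ℕ) :
    (∏ i, (MvPolynomial.X i : MvPolynomial (Fin n) K) ^ k i) =
      MvPolynomial.monomial (Finsupp.equivFunOnFinite.symm k) 1 := by
  rw [MvPolynomial.monomial_eq, MvPolynomial.C_1, one_mul, Finsupp.prod_fintype]
  · rfl
  · intro i
    exact pow_zero _

theorem laur_aeval_loc (K : Type) [NormedField K] (n : ℕ) (f : AddMonoidAlgebra K (Fin n → ℤ)) :
    ∃ (k : Fin n → ℕ) (f' : MvPolynomial (Fin n) K),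
      f * MvPolynomial.aeval (laurVar K n)
        (∏ i, (MvPolynomial.X i : MvPolynomial (Fin n) K) ^ k i) =
        MvPolynomial.aeval (laurVar K n) f' := by
  induction f using AddMonoidAlgebra.induction_linear with
  | zero => exact ⟨0, 0, by rw [zero_mul, map_zero]⟩
  | add f1 f2 h1 h2 =>
    obtain ⟨k1, f1', e1⟩ := h1
    obtain ⟨k2, f2', e2⟩ := h2
    refine ⟨k1 + k2, f1' * (∏ i, (MvPolynomial.X i : MvPolynomial (Fin n) K) ^ k2 i) +
      f2' * (∏ i, (MvPolynomial.X i : MvPolynomial (Fin n) K) ^ k1 i), ?_⟩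
    have e3 : (∏ i, (MvPolynomial.X i : MvPolynomial (Fin n) K) ^ (k1 + k2) i) =
        (∏ i, (MvPolynomial.X i : MvPolynomial (Fin n) K) ^ k1 i) *
          (∏ i, (MvPolynomial.X i : MvPolynomial (Fin n) K) ^ k2 i) := by
      rw [← Finset.prod_mul_distrib]
      exact Finset.prod_congr rfl fun i _ => pow_add _ _ _
    rw [e3, map_add, map_mul, map_mul, map_mul, ← e1, ← e2]
    ring
  | single u c =>
    refine ⟨fun i => (-u i).toNat, MvPolynomial.monomial
      (Finsupp.equivFunOnFinite.symm fun i => (u i).toNat) c, ?_⟩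
    rw [laur_prod, laur_monomial, laur_monomial, AddMonoidAlgebra.single_mul_single, mul_one]
    congr 1
    funext i
    show u i + (((-u i).toNat : ℕ) : ℤ) = (((u i).toNat : ℕ) : ℤ)
    omega

/-- (F2) for Laurent polynomial rings. -/
theorem torP_laurent (K : Type) [NormedField K] (n : ℕ)
    (hG : ∀ (A : Type) [CommRing A] [Algebra K A] [Algebra.FiniteType K A], Good K A)
    (h : TorP K (fun i : Fin n => (MvPolynomial.X i : MvPolynomial (Fin n) K))) :
    TorP K (laurVar K n) := by
  have hX : ∀ i, MvPolynomial.aeval (laurVar K n) (MvPolynomial.X i : MvPolynomial (Fin n) K) =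
      laurVar K n i := fun i => MvPolynomial.aeval_X _ i
  have h1 := TorP.loc (hG (MvPolynomial (Fin n) K)) h
    (MvPolynomial.aeval (laurVar K n) : MvPolynomial (Fin n) K →ₐ[K] _) (laur_aeval_inj K n)
    (fun i => by
      rw [hX]
      exact laurVar_unit K n i) (laur_aeval_loc K n)
  have h2 : (fun i => MvPolynomial.aeval (laurVar K n)
      (MvPolynomial.X i : MvPolynomial (Fin n) K)) = laurVar K n := funext hX
  rw [h2] at h1
  exact h1

end Pool.Agent.TD
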