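import Pool.Agent.TD.F.Defs

/-!
# Block F: sections near compact sets of an open subspace
-/

open scoped ContDiff Topology

namespace Pool.Agent.TD

namespace Mor

variable {X Φ X' Φ' : Type} [TopologicalSpace X] [TopologicalSpace X'] {L : LogSpace X Φ}
  {L' : LogSpace X' Φ'} (m : Mor L L') {p q : ℕ}

/-- Germs at the points of the image of an injective morphism. -/
theorem lift_stalks (hinj : Function.Injective m.toFun) (x : ∀ z, L'.Stalk p q (m.toFun z)) :
    ∃ s : ∀ y, L'.Stalk p q y, ∀ z, s (m.toFun z) = x z := by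
  classical
  have key : ∀ (w z : X) (e : m.toFun w = m.toFun z), e ▸ x w = x z := by
    intro w z e
    have hwz : w = z := hinj e
    subst hwz
    rfl
  refine ⟨fun y => if h : ∃ z, m.toFun z = y then h.choose_spec ▸ x h.choose else 0, fun z => ?_⟩
  have h : ∃ w, m.toFun w = m.toFun z := ⟨z, rfl⟩
  have e1 : (if h : ∃ w, m.toFun w = m.toFun z then (h.choose_spec ▸ x h.choose :
      L'.Stalk p q (m.toFun z)) else 0) = h.choose_spec ▸ x h.choose := dif_pos h
  exact e1.trans (key _ _ _)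

/-- `m` is injective and open, and the log functions of `L` are locally affine combinations of
pulled back ones. Then sections near compact sets of `X` are sections on `X'`. -/
theorem exists_lift [LocallyCompactSpace X'] [T2Space X'] (hinj : Function.Injective m.toFun)
    (ho : ∀ z, ∀ V ∈ 𝓝 z, m.toFun '' V ∈ 𝓝 (m.toFun z)) (haff : ∀ z, m.AffAt z)
    (hC : L'.CutOff) {Z : Set X} (hZ : IsCompact Z) (c : L.G p q) :
    ∃ d : L'.G p q, ∀ z ∈ Z, (m.pullG p q d).1 z = c.1 z := by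
  have hx : ∀ z, ∃ x : L'.Stalk p q (m.toFun z), m.pullS p q z x = c.1 z := fun z =>
    m.pullS_surjective (haff z) (c.1 z)
  choose x hx using hx
  obtain ⟨s, hs⟩ := m.lift_stalks hinj x
  have hloc : ∀ y ∈ m.toFun '' Z, ∃ θ : Raw Φ' p q,
      ∀ᶠ y' in 𝓝 y, y' ∈ m.toFun '' Z → ∃ h : L'.SFat y' θ, s y' = L'.germ θ h := by
    rintro _ ⟨z, -, rfl⟩
    obtain ⟨θ, hθ, hθx⟩ := L'.exists_germ (x z)
    obtain ⟨η, hη⟩ := c.2 z
    obtain ⟨k0, e0⟩ := hη.self_of_nhds
    refine ⟨θ, ?_⟩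
    have h1 : L.Van z (pullR m.ix θ - η) := by
      rw [← L.germ_eq_iff (m.sfat hθ) k0, ← pullS_germ m hθ, hθx, hx z, e0]
    have h2 : ∀ᶠ z' in 𝓝 z, L.Van z' (pullR m.ix θ - η) := LogSpace.Van.nhds L h1
    have h3 : ∀ᶠ z' in 𝓝 z, L'.SFat (m.toFun z') θ :=
      m.cont.continuousAt.eventually (LogSpace.SFat.nhds L' hθ)
    have h4 : ∀ᶠ z' in 𝓝 z, ∃ h : L'.SFat (m.toFun z') θ, s (m.toFun z') = L'.germ θ h := by
      filter_upwards [hη, h2, h3] with z' h5 h6 h7
      obtain ⟨k1, e1⟩ := h5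
      refine ⟨h7, ?_⟩
      rw [hs z']
      apply m.pullS_injective (haff z') (ho z')
      rw [hx z', e1, pullS_germ, eq_comm, L.germ_eq_iff]
      exact h6
    refine Filter.mem_of_superset (ho z _ h4) ?_
    rintro _ ⟨z', hz', rfl⟩ -
    exact hz'
  obtain ⟨d, hd⟩ := L'.extend hC (hZ.image m.cont) s hloc
  refine ⟨d, fun z hz => ?_⟩
  rw [pullG_val, hd _ ⟨z, hz, rfl⟩, hs z, hx z]

end Mor

end Pool.Agent.TD
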