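import Pool.Agent.TD.F.Step
import Pool.Agent.TD.F.Zero

/-!
# Block F, (F2): polynomial rings
-/

open scoped ContDiff Topology
open Polynomial

namespace Pool.Agent.TD

/-- (F2) for polynomial rings. -/
theorem torP_mvPolynomial (K : Type) [NormedField K] [IsUltrametricDist K]
    (hG : ∀ (A : Type) [CommRing A] [Algebra K A] [Algebra.FiniteType K A], Good K A)
    (hU : ∀ (A : Type) [CommRing A] [Algebra K A] [Algebra.FiniteType K A] [IsDomain A] (r : ℝ),
      0 < r → CircU K A r) (n : ℕ) :
    TorP K (fun i : Fin n => (MvPolynomial.X i : MvPolynomial (Fin n) K)) := by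
  induction n with
  | zero =>
    have h := (torP_self K (hG K)).iso (MvPolynomial.isEmptyAlgEquiv K (Fin 0)).symm
    have e : (fun i => (MvPolynomial.isEmptyAlgEquiv K (Fin 0)).symm
        ((Fin.elim0 : Fin 0 → K) i)) =
        fun i : Fin 0 => (MvPolynomial.X i : MvPolynomial (Fin 0) K) := by
      funext i
      exact i.elim0
    rw [e] at h
    exact h
  | succ n ih =>
    have hF : Algebra.FiniteType K (Polynomial (MvPolynomial (Fin n) K)) :=
      Algebra.FiniteType.trans (S := MvPolynomial (Fin n) K) inferInstance inferInstance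
    have h := (TorP.step (hG (MvPolynomial (Fin n) K)) (hG (Polynomial (MvPolynomial (Fin n) K)))
      (hU (MvPolynomial (Fin n) K)) ih).iso (MvPolynomial.finSuccEquiv K n).symm
    have e : (fun i => (MvPolynomial.finSuccEquiv K n).symm
        (coX (fun i : Fin n => (MvPolynomial.X i : MvPolynomial (Fin n) K)) i)) =
        fun i : Fin (n + 1) => (MvPolynomial.X i : MvPolynomial (Fin (n + 1)) K) := by
      funext i
      rw [AlgEquiv.symm_apply_eq]
      refine Fin.cases ?_ (fun j => ?_) i
      · rw [MvPolynomial.finSuccEquiv_X_zero]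
        rfl
      · rw [MvPolynomial.finSuccEquiv_X_succ]
        rfl
    rw [e] at h
    exact h

end Pool.Agent.TD
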