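import Pool.Agent.TD.F.Defs
import Pool.Agent.TD.H.Push

/-!
# Block F: the projection `M(A[X]) → M(A)` is proper on the circle bundle
-/

open scoped ContDiff Topology
open Polynomial

namespace Pool.Agent.TD

section
variable {K A : Type} [NormedField K] [CommRing A] [Algebra K A]

theorem isClosed_circ (r : ℝ) : IsClosed (circB K A r) :=
  isClosed_eq (Ber.continuous_v X) continuous_const

/-- `|f|_z ≤ max_k |f_k|_{pr z} |r|^k` on the circle bundle. -/
private lemma fpr_bound {r : ℝ} {z : Ber K A[X]} (hz : z ∈ circB K A r) (f : A[X]) {M : ℕ → ℝ}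
    (hM0 : ∀ k, 0 ≤ M k) (hM : ∀ k, z.v (C (f.coeff k)) ≤ M k) :
    z.v f ≤ ∑ k ∈ Finset.range (f.natDegree + 1), M k * |r| ^ k := by
  have hX : z.v X = r := hz
  have h0 : ∀ k, 0 ≤ M k * |r| ^ k := fun k => mul_nonneg (hM0 k) (pow_nonneg (abs_nonneg r) k)
  conv_lhs => rw [Polynomial.as_sum_range_C_mul_X_pow f]
  refine z.sum_le _ _ (Finset.sum_nonneg fun k _ => h0 k) fun k hk => ?_
  rw [z.mul, z.pow, hX]
  refine le_trans ?_ (Finset.single_le_sum (f := fun k => M k * |r| ^ k)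
    (fun i _ => h0 i) hk)
  refine mul_le_mul (hM k) (pow_le_pow_left₀ ?_ (le_abs_self r) k) (pow_nonneg ?_ k) (hM0 k)
  · rw [← hX]; exact z.nonneg _
  · rw [← hX]; exact z.nonneg _

theorem isCompact_circ_pre (r : ℝ) {Z : Set (Ber K A)} (hZ : IsCompact Z) :
    IsCompact (circB K A r ∩ (prM K A).toFun ⁻¹' Z) := by
  have h1 : ∀ a : A, ∃ M : ℝ, 0 ≤ M ∧ ∀ y ∈ Z, y.v a ≤ M := by
    intro a
    have h2 : BddAbove ((fun y : Ber K A => y.v a) '' Z) :=
      (hZ.image (Ber.continuous_v a)).bddAbove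
    obtain ⟨M, hM⟩ := h2
    exact ⟨max M 0, le_max_right _ _, fun y hy => (hM ⟨y, hy, rfl⟩).trans (le_max_left _ _)⟩
  choose M hM0 hM using h1
  refine Ber.isCompact_of_bounded
    ((isClosed_circ r).inter (hZ.isClosed.preimage (prM K A).cont))
    (fun f => ∑ k ∈ Finset.range (f.natDegree + 1), M (f.coeff k) * |r| ^ k) ?_
  rintro z ⟨hz, hz'⟩ f
  exact fpr_bound hz f (fun k => hM0 _) fun k => hM (f.coeff k) _ hz'

theorem properOn_circ [LocallyCompactSpace (Ber K A)] (r : ℝ) :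
    ProperOn (circB K A r) (prM K A).toFun :=
  properOn_of_comp (prM K A).cont (isClosed_circ r) fun _ hZ => isCompact_circ_pre r hZ

/-- A smooth function of one coordinate is a form of type `(0,0)`. -/
private lemma fpr_isSF {Φ : Type} (f : Φ) {a : ℝ → ℝ} (ha : ContDiff ℝ ∞ a) :
    IsSF {f} (fun x _ _ => a (x f) : Raw Φ 0 0) := by
  have ha' : ContDiff ℝ ∞ (fun y : (({f} : Finset Φ) → ℝ) => a (y ⟨f, Finset.mem_singleton_self f⟩)) :=
    ha.comp (contDiff_apply ℝ ℝ _)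
  refine ⟨fun y => ContinuousAlternatingMap.constOfIsEmptyLIE ℝ (({f} : Finset Φ) → ℝ)
    ((({f} : Finset Φ) → ℝ) [⋀^Fin 0]→L[ℝ] ℝ) (Fin 0)
      (ContinuousAlternatingMap.constOfIsEmptyLIE ℝ (({f} : Finset Φ) → ℝ)
      ℝ (Fin 0) (a (y ⟨f, Finset.mem_singleton_self f⟩))), ?_, fun x w v => rfl⟩
  have h1 : ContDiff ℝ ∞ (fun y : (({f} : Finset Φ) → ℝ) =>
      ContinuousAlternatingMap.constOfIsEmptyLIE ℝ (({f} : Finset Φ) → ℝ)
      ℝ (Fin 0) (a (y ⟨f, Finset.mem_singleton_self f⟩))) :=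
    (LinearIsometryEquiv.contDiff _).comp ha'
  exact (LinearIsometryEquiv.contDiff _).comp h1

/-- Vanishing of `a (x f) v(f)` where `a = 0` near `z`. -/
private lemma fpr_van {X₀ Φ : Type} [TopologicalSpace X₀] (L : LogSpace X₀ Φ) {z : X₀} {f : Φ}
    (hz : z ∈ L.dom f) {a : ℝ → ℝ} (ha : ContDiff ℝ ∞ a)
    (h : ∀ᶠ z' in 𝓝 z, z' ∈ L.dom f → a (L.lf f z') = 0) :
    L.Van z (mul0 (fun x _ _ => a (x f)) (dlg f) : Raw Φ 1 0) := by
  have hd : ∀ᶠ z' in 𝓝 z, z' ∈ L.dom f := (L.isOpen_dom f).mem_nhds hz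
  refine ⟨{f}, (fpr_isSF f ha).mul0 (isSF_dlg (Finset.mem_singleton_self f)),
    {z' | a (L.lf f z') = 0 ∧ z' ∈ L.dom f}, ?_, ?_, ?_⟩
  · filter_upwards [h, hd] with z' h1 h2
    exact ⟨h1 h2, h2⟩
  · intro g hg z' hz'
    rw [Finset.mem_singleton.1 hg]
    exact hz'.2
  · intro σ _ hσP x w v hx _ _
    obtain ⟨z', hz', e'⟩ := hσP hx
    have e1 : x f = L.lf f z' := (congrFun e' ⟨f, Finset.mem_singleton_self f⟩).symm
    show a (x f) * _ = 0
    rw [e1, hz'.1, zero_mul]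

/-- A global section equal to `dlog |X|` near the circle bundle. -/
theorem exists_xi (K A : Type) [NormedField K] [CommRing A] [Algebra K A] {r : ℝ} (hr : 0 < r) :
    ∃ ξ : (berLS K A[X]).G 1 0,
      ∀ z ∈ circB K A r, ∀ h, ξ.1 z = (berLS K A[X]).dlS (X : A[X]) h := by
  classical
  let L := berLS K A[X]
  let ψ : ContDiffBump (Real.log r) := ⟨1/4, 1/2, by norm_num, by norm_num⟩
  have hψ : ContDiff ℝ ∞ (ψ : ℝ → ℝ) := ψ.contDiff
  have hψ1 : ∀ t, |t - Real.log r| ≤ 1/4 → ψ t = 1 := fun t ht =>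
    ψ.one_of_mem_closedBall (by rw [Metric.mem_closedBall, Real.dist_eq]; exact ht)
  have hψ0 : ∀ t, 1/2 ≤ |t - Real.log r| → ψ t = 0 := fun t ht =>
    ψ.zero_of_le_dist (by rw [Real.dist_eq]; exact ht)
  let θ : Raw A[X] 1 0 := mul0 (fun x _ _ => ψ (x (X : A[X]))) (dlg (X : A[X]))
  have hsf : ∀ z, z ∈ L.dom (X : A[X]) → L.SFat z θ := fun z hz =>
    ⟨{X}, (fpr_isSF X hψ).mul0 (isSF_dlg (Finset.mem_singleton_self _)), by simpa using hz⟩
  let ξ : ∀ z, L.Stalk 1 0 z := fun z =>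
    if h : z ∈ L.dom (X : A[X]) then L.germ θ (hsf z h) else 0
  have hcont : Continuous fun z : Ber K A[X] => z.v X := Ber.continuous_v X
  refine ⟨⟨ξ, fun z => ?_⟩, ?_⟩
  · by_cases hz : z ∈ L.dom (X : A[X])
    · refine ⟨θ, ?_⟩
      have hd : ∀ᶠ z' in 𝓝 z, z' ∈ L.dom (X : A[X]) := (L.isOpen_dom _).mem_nhds hz
      filter_upwards [hd] with z' hz'
      exact ⟨hsf z' hz', dif_pos hz'⟩
    · refine ⟨0, ?_⟩
      have hz0 : z.v X = 0 := by
        by_contra h
        exact hz h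
      have hd : {z' : Ber K A[X] | z'.v X < r * Real.exp (-1)} ∈ 𝓝 z := by
        refine (isOpen_lt hcont continuous_const).mem_nhds ?_
        show z.v X < _
        rw [hz0]; positivity
      filter_upwards [eventually_mem_nhds_iff.2 hd] with z' hz'
      refine ⟨LogSpace.SFat.zero L, ?_⟩
      rw [L.germ_zero]
      by_cases hz'' : z' ∈ L.dom (X : A[X])
      · show ξ z' = 0
        rw [show ξ z' = L.germ θ (hsf z' hz'') from dif_pos hz'', L.germ_eq_zero]
        refine fpr_van L hz'' hψ ?_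
        filter_upwards [hz'] with y hy hyd
        apply hψ0
        have h1 : Real.log (y.v X) < Real.log r - 1 := by
          have hpos : 0 < y.v X := lt_of_le_of_ne (y.nonneg _) (Ne.symm hyd)
          have h2 := Real.log_lt_log hpos hy
          rw [Real.log_mul hr.ne' (Real.exp_pos _).ne', Real.log_exp] at h2
          linarith
        show 1/2 ≤ |Real.log (y.v X) - Real.log r|
        rw [abs_sub_comm]
        refine le_trans ?_ (le_abs_self _)
        linarith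
      · exact dif_neg hz''
  · intro z hz h
    show ξ z = L.dlS X h
    rw [show ξ z = L.germ θ (hsf z h) from dif_pos h]
    have h2 : L.SFat z (dlg (X : A[X])) :=
      ⟨{X}, isSF_dlg (Finset.mem_singleton_self _), by simpa using h⟩
    show L.germ θ (hsf z h) = L.germ (dlg X) h2
    rw [L.germ_eq_iff]
    have e : (θ - dlg (X : A[X]) : Raw A[X] 1 0) =
        mul0 (fun x _ _ => (ψ (x (X : A[X])) - 1)) (dlg (X : A[X])) := by
      funext x w v
      show ψ (x X) * _ - _ = (ψ (x X) - 1) * _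
      ring
    rw [e]
    refine fpr_van L h (a := fun t => ψ t - 1) (hψ.sub contDiff_const) ?_
    have hc : ContinuousAt (fun y : Ber K A[X] => Real.log (y.v X)) z :=
      hcont.continuousAt.log h
    have hz' : z.v X = r := hz
    have hb : {t : ℝ | |t - Real.log r| ≤ 1/4} ∈ 𝓝 (Real.log (z.v X)) := by
      rw [hz']
      have := Metric.closedBall_mem_nhds (Real.log r) (show (0:ℝ) < 1/4 by norm_num)
      filter_upwards [this] with t ht
      rwa [Metric.mem_closedBall, Real.dist_eq] at ht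
    filter_upwards [hc hb] with y hy _
    show ψ (Real.log (y.v X)) - 1 = 0
    rw [hψ1 _ hy, sub_self]

theorem ddS_wdS_dlS {z : Ber K A[X]} (h : z ∈ (berLS K A[X]).dom (X : A[X])) {p q : ℕ}
    (c : (berLS K A[X]).Stalk p q z) :
    (berLS K A[X]).ddS (p + 1) q z ((berLS K A[X]).wdS p q z ((berLS K A[X]).dlS X h) c) =
      (berLS K A[X]).wdS p (q + 1) z ((berLS K A[X]).dlS X h) ((berLS K A[X]).ddS p q z c) :=
  (berLS K A[X]).ddS_wdS (Submodule.subset_span ⟨X, h, rfl⟩) c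

end

end Pool.Agent.TD
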