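import Pool.Agent.TD.F.Hom
import Pool.Agent.TD.V.Inst

/-!
# Block F: `phi0`, `phi1` are quasi-isomorphisms at the points of `M(A)`
-/

open scoped ContDiff Topology
open Polynomial

namespace Pool.Agent.TD

section
variable {B : Type} [TopologicalSpace B] (C D : SCx B)

theorem qi_prod_Cl (Z : Set B) (q : ℕ) (c : C.G q × D.G q) :
    (C.prod D).Cl Z q c ↔ C.Cl Z q c.1 ∧ D.Cl Z q c.2 :=
  Set.disjoint_union_left

theorem qi_prod_Bd (Z : Set B) (q : ℕ) (c : C.G q × D.G q) :
    (C.prod D).Bd Z q c ↔ C.Bd Z q c.1 ∧ D.Bd Z q c.2 := by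
  cases q with
  | zero => exact Set.disjoint_union_left
  | succ q =>
    constructor
    · rintro ⟨e, he⟩
      have he' : Disjoint (C.supp (c.1 - C.d q e.1) ∪ D.supp (c.2 - D.d q e.2)) Z := he
      rw [Set.disjoint_union_left] at he'
      exact ⟨⟨e.1, he'.1⟩, ⟨e.2, he'.2⟩⟩
    · rintro ⟨⟨e1, h1⟩, ⟨e2, h2⟩⟩
      exact ⟨(e1, e2), Set.disjoint_union_left.2 ⟨h1, h2⟩⟩

end

section
variable {K A : Type} [NormedField K] [CommRing A] [Algebra K A]
  [LocallyCompactSpace (Ber K A)] [LocallyCompactSpace (Ber K A[X])]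
  (hA : (berLS K A).CutOff) (hX : (berLS K A[X]).CutOff) {r : ℝ}

/-- Closed classes near the fibre over `y`. -/
theorem qi_Cl (p : ℕ) (y : Ber K A) (q : ℕ) (c : (berLS K A[X]).G p q) :
    (circD hX r p).Cl {y} q (((berLS K A[X]).cx hX p).cls (circB K A r) q c) ↔
      ∀ z ∈ circB K A r, (prM K A).toFun z = y → (berLS K A[X]).ddS p q z (c.1 z) = 0 := by
  have h1 := ((berLS K A[X]).cx hX p).push_Cl (properOn_circ (K := K) (A := A) r) {y} c
  have h2 := (berLS K A[X]).cx_Cl_iff hX p (circB K A r ∩ (prM K A).toFun ⁻¹' {y}) q c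
  refine (h1.trans h2).trans ⟨fun h z hz hy => h z ⟨hz, hy⟩, fun h z hz => h z hz.1 hz.2⟩

/-- Exact classes near the fibre over `y`, degree zero. -/
theorem qi_Bd_zero (p : ℕ) (y : Ber K A) (c : (berLS K A[X]).G p 0) :
    (circD hX r p).Bd {y} 0 (((berLS K A[X]).cx hX p).cls (circB K A r) 0 c) ↔
      ∀ z ∈ circB K A r, (prM K A).toFun z = y → c.1 z = 0 := by
  have h1 := ((berLS K A[X]).cx hX p).push_Bd (properOn_circ (K := K) (A := A) r) {y} (q := 0) c
  have h2 := (berLS K A[X]).cx_Bd_zero_iff hX p (circB K A r ∩ (prM K A).toFun ⁻¹' {y}) c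
  refine (h1.trans h2).trans ⟨fun h z hz hy => h z ⟨hz, hy⟩, fun h z hz => h z hz.1 hz.2⟩

/-- Exact classes near the fibre over `y`, positive degree. -/
theorem qi_Bd_succ (p : ℕ) (y : Ber K A) (q : ℕ) (c : (berLS K A[X]).G p (q + 1)) :
    (circD hX r p).Bd {y} (q + 1) (((berLS K A[X]).cx hX p).cls (circB K A r) (q + 1) c) ↔
      ∃ e : (berLS K A[X]).G p q, ∀ z ∈ circB K A r, (prM K A).toFun z = y →
        c.1 z = (berLS K A[X]).ddS p q z (e.1 z) := by
  have h1 := ((berLS K A[X]).cx hX p).push_Bd (properOn_circ (K := K) (A := A) r) {y}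
    (q := q + 1) c
  have h2 := (berLS K A[X]).cx_Bd_succ_iff hX p (circB K A r ∩ (prM K A).toFun ⁻¹' {y}) q c
  refine (h1.trans h2).trans ⟨fun h => ?_, fun h => ?_⟩
  · obtain ⟨e, he⟩ := h
    exact ⟨e, fun z hz hy => he z ⟨hz, hy⟩⟩
  · obtain ⟨e, he⟩ := h
    exact ⟨e, fun z hz => he z hz.1 hz.2⟩

/-- Closed classes of type `(p,q+1)` are exact near the fibre over `y`. -/
theorem qi_van (hsX : ∀ z, (berLS K A[X]).StarAt z) (p : ℕ) (y : Ber K A) (q : ℕ)
    (c : (berLS K A[X]).G p (q + 1))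
    (hc : ∀ z ∈ circB K A r, (prM K A).toFun z = y →
      (berLS K A[X]).ddS p (q + 1) z (c.1 z) = 0) :
    (circD hX r p).Bd {y} (q + 1) (((berLS K A[X]).cx hX p).cls (circB K A r) (q + 1) c) := by
  rw [qi_Bd_succ]
  obtain ⟨e, he⟩ := vanish_circle hX hsX y r c (fun z hz hzr => by
    refine hc z hzr ?_
    apply Ber.ext_v
    intro a
    rw [prM_v]
    exact hz a)
  refine ⟨e, fun z hz hy => he z (fun a => ?_) hz⟩
  rw [← prM_v, hy]

theorem phi0_qiso (hsA : ∀ z, (berLS K A).StarAt z) (hsX : ∀ z, (berLS K A[X]).StarAt z)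
    (hU : CircU K A r) (y : Ber K A) : (phi0 hA hX r).QIso {y} := by
  constructor
  · intro q c hc hb
    cases q with
    | zero =>
      have h1 := ((berLS K A).cx_Cl_iff hA 0 {y} 0 c).1 hc y (Set.mem_singleton y)
      have h2 := (qi_Bd_zero hX 0 y ((prM K A).pullG 0 0 c)).1 hb
      have h3 := hU.inj0 y c h1 h2
      refine ((berLS K A).cx_Bd_zero_iff hA 0 {y} c).2 fun z hz => ?_
      rw [Set.mem_singleton_iff] at hz
      subst hz
      exact h3
    | succ q => exact (berLS K A).cx_Bd_of_star hA 0 (hsA y) q c hc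
  · intro q e he
    obtain ⟨e, rfl⟩ := ((berLS K A[X]).cx hX 0).cls_surjective (S := circB K A r) q e
    change (berLS K A[X]).G 0 q at e
    rw [qi_Cl] at he
    cases q with
    | zero =>
      obtain ⟨a, ha, hz⟩ := hU.ex0 y e he
      refine ⟨a, ((berLS K A).cx_Cl_iff hA 0 {y} 0 a).2 fun z hz => ?_, ?_⟩
      · rw [Set.mem_singleton_iff] at hz
        subst hz
        exact ha
      · have h1 : (circD hX r 0).Bd {y} 0 (((berLS K A[X]).cx hX 0).cls (circB K A r) 0
            (e - (prM K A).pullG 0 0 a)) := by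
          rw [qi_Bd_zero]
          intro z hzc hzy
          show e.1 z - ((prM K A).pullG 0 0 a).1 z = 0
          rw [hz z hzc hzy, sub_self]
        exact h1
    | succ q =>
      refine ⟨0, ((berLS K A).cx_Cl_iff hA 0 {y} (q + 1) 0).2 fun z _ => ?_, ?_⟩
      · exact map_zero _
      · rw [map_zero, sub_zero]
        exact qi_van hX hsX 0 y q e he

theorem phi1_qiso (hsA : ∀ z, (berLS K A).StarAt z) (hsX : ∀ z, (berLS K A[X]).StarAt z)
    (hU : CircU K A r) (hr : 0 < r) (ξ : (berLS K A[X]).G 1 0)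
    (hξ : ∀ z ∈ circB K A r, (berLS K A[X]).ddS 1 0 z (ξ.1 z) = 0 ∧ ξ.1 z ∈ (berLS K A[X]).L1 z)
    (hξ' : ∀ z ∈ circB K A r, ∀ h, ξ.1 z = (berLS K A[X]).dlS (X : A[X]) h) (p : ℕ)
    (y : Ber K A) : (phi1 hA hX r ξ hξ p).QIso {y} := by
  constructor
  · rintro q ⟨a, b⟩ hc hb
    rw [qi_prod_Cl] at hc
    rw [qi_prod_Bd]
    cases q with
    | zero =>
      have h1 := ((berLS K A).cx_Cl_iff hA (p + 1) {y} 0 a).1 hc.1 y (Set.mem_singleton y)
      have h1' := ((berLS K A).cx_Cl_iff hA p {y} 0 b).1 hc.2 y (Set.mem_singleton y)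
      have h2 := (qi_Bd_zero hX (p + 1) y ((prM K A).pullG (p + 1) 0 a +
        (berLS K A[X]).wdG p 0 ξ ((prM K A).pullG p 0 b))).1 hb
      have h3 := hU.inj1 p y a b h1 h1' (fun z hz h hy => by
        rw [← hξ' z hz h]
        exact h2 z hz hy)
      refine ⟨((berLS K A).cx_Bd_zero_iff hA (p + 1) {y} a).2 fun z hz => ?_,
        ((berLS K A).cx_Bd_zero_iff hA p {y} b).2 fun z hz => ?_⟩
      · rw [Set.mem_singleton_iff] at hz
        subst hz
        exact h3.1
      · rw [Set.mem_singleton_iff] at hz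
        subst hz
        exact h3.2
    | succ q =>
      exact ⟨(berLS K A).cx_Bd_of_star hA (p + 1) (hsA y) q a hc.1,
        (berLS K A).cx_Bd_of_star hA p (hsA y) q b hc.2⟩
  · intro q e he
    obtain ⟨e, rfl⟩ := ((berLS K A[X]).cx hX (p + 1)).cls_surjective (S := circB K A r) q e
    change (berLS K A[X]).G (p + 1) q at e
    rw [qi_Cl] at he
    cases q with
    | zero =>
      obtain ⟨a, b, ha, hb, hz⟩ := hU.ex1 p y e he
      refine ⟨(a, b), (qi_prod_Cl _ _ _ _ _).2
        ⟨((berLS K A).cx_Cl_iff hA (p + 1) {y} 0 a).2 fun z hz => ?_,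
          ((berLS K A).cx_Cl_iff hA p {y} 0 b).2 fun z hz => ?_⟩, ?_⟩
      · rw [Set.mem_singleton_iff] at hz
        subst hz
        exact ha
      · rw [Set.mem_singleton_iff] at hz
        subst hz
        exact hb
      · have h1 : (circD hX r (p + 1)).Bd {y} 0
            (((berLS K A[X]).cx hX (p + 1)).cls (circB K A r) 0
            (e - ((prM K A).pullG (p + 1) 0 a +
              (berLS K A[X]).wdG p 0 ξ ((prM K A).pullG p 0 b)))) := by
          rw [qi_Bd_zero]
          intro z hzc hzy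
          have hd := dom_of_circ hr hzc
          show e.1 z - (((prM K A).pullG (p + 1) 0 a).1 z +
            (berLS K A[X]).wdS p 0 z (ξ.1 z) (((prM K A).pullG p 0 b).1 z)) = 0
          rw [hz z hzc hd hzy, hξ' z hzc hd, sub_self]
        exact h1
    | succ q =>
      refine ⟨0, (qi_prod_Cl _ _ _ _ _).2
        ⟨((berLS K A).cx_Cl_iff hA (p + 1) {y} (q + 1) 0).2 fun z _ => ?_,
          ((berLS K A).cx_Cl_iff hA p {y} (q + 1) 0).2 fun z _ => ?_⟩, ?_⟩
      · exact map_zero _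
      · exact map_zero _
      · rw [map_zero, sub_zero]
        exact qi_van hX hsX (p + 1) y q e he

end

end Pool.Agent.TD
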