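import Pool.Agent.TD.F.Circ
import Pool.Agent.TD.F.Tor

/-!
# Block F, (F2): the induction step
-/

open scoped ContDiff Topology
open Polynomial

namespace Pool.Agent.TD

section
variable {K A : Type} [NormedField K] [CommRing A] [Algebra K A] {n : ℕ}

/-- The coordinates `X, g_0, ..., g_(n-1)` of `A[X]`. -/
noncomputable def coX (g : Fin n → A) : Fin (n + 1) → A[X] := Fin.cons X fun i => C (g i)

theorem torS_coX (g : Fin n → A) (b : Fin (n + 1) → ℝ) :
    torS K (coX g) b = circZ (Real.exp (b 0)) (torS K g fun i => b i.succ) := by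
  ext z
  constructor
  · intro hz
    exact ⟨hz 0, fun i => hz i.succ⟩
  · rintro ⟨h1, h2⟩ i
    refine Fin.cases ?_ (fun j => ?_) i
    · exact h1
    · exact h2 j

theorem step_compact {g : Fin n → A} (h : TorP K g) (b : Fin (n + 1) → ℝ) :
    IsCompact (torS K (coX g) b) := by
  rw [torS_coX]
  exact isCompact_circ_pre _ (h.compact _)

/-- Pull back of an exact section. -/
theorem step_pull {p q : ℕ} {a : (berLS K A).G p (q + 1)} {a' : (berLS K A).G p q}
    {Z : Set (Ber K A)} (ha : ∀ y ∈ Z, a.1 y = (berLS K A).ddS p q y (a'.1 y)) {z : Ber K A[X]}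
    (hz : (prM K A).toFun z ∈ Z) : ((prM K A).pullG p (q + 1) a).1 z =
      (berLS K A[X]).ddS p q z (((prM K A).pullG p q a').1 z) := by
  rw [Mor.pullG_val, Mor.pullG_val, ha _ hz, Mor.pullS_ddS]

theorem step_ex (gA : Good K A) (gX : Good K A[X]) (hU : ∀ r, 0 < r → CircU K A r)
    {g : Fin n → A} (h : TorP K g) (b : Fin (n + 1) → ℝ) (p q : ℕ)
    (c : (berLS K A[X]).G p (q + 1))
    (hc : ∀ z ∈ torS K (coX g) b, (berLS K A[X]).ddS p (q + 1) z (c.1 z) = 0) :
    ∃ e : (berLS K A[X]).G p q, ∀ z ∈ torS K (coX g) b,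
      c.1 z = (berLS K A[X]).ddS p q z (e.1 z) := by
  have hr : 0 < Real.exp (b 0) := Real.exp_pos _
  rw [torS_coX] at hc ⊢
  have hZ := h.compact fun i => b i.succ
  cases p with
  | zero =>
    obtain ⟨a, e, ha, he⟩ := circ_ex0 gA gX (hU _ hr) hZ c hc
    obtain ⟨a', ha'⟩ := h.ex _ 0 q a ha
    refine ⟨(prM K A).pullG 0 q a' + e, fun z hz => ?_⟩
    rw [he z hz, step_pull ha' hz.2, ← map_add]
    rfl
  | succ p =>
    obtain ⟨a, b', e, ha, hb, he⟩ := circ_ex1 gA gX (hU _ hr) hr hZ c hc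
    obtain ⟨a', ha'⟩ := h.ex _ (p + 1) q a ha
    obtain ⟨b'', hb''⟩ := h.ex _ p q b' hb
    obtain ⟨ξ, hξ⟩ := exists_xi K A hr
    refine ⟨(prM K A).pullG (p + 1) q a' +
      (berLS K A[X]).wdG p q ξ ((prM K A).pullG p q b'') + e, fun z hz => ?_⟩
    have hX : z ∈ (berLS K A[X]).dom (X : A[X]) := dom_of_circ hr hz.1
    rw [he z hz hX, step_pull ha' hz.2, step_pull hb'' hz.2, ← ddS_wdS_dlS, ← hξ z hz.1 hX,
      ← map_add, ← map_add]
    rfl

/-- The image of `C o g` is contained in the image of `coX g`. -/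
theorem step_image [DecidableEq A[X]] (g : Fin n → A) :
    (Finset.univ.image fun i => (C (g i) : A[X])) ⊆ Finset.univ.image (coX g) := by
  intro f hf
  obtain ⟨i, -, rfl⟩ := Finset.mem_image.1 hf
  exact Finset.mem_image.2 ⟨i.succ, Finset.mem_univ _, rfl⟩

/-- Pull back of a constant germ. -/
theorem step_pullg {p : ℕ} {g : Fin n → A} {α : (Fin n → ℝ) [⋀^Fin p]→L[ℝ] ℝ}
    {a : (berLS K A).G p 0} {z : Ber K A[X]}
    (ha : ∃ h : (berLS K A).SFat ((prM K A).toFun z) (cstR g α),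
      a.1 ((prM K A).toFun z) = (berLS K A).germ (cstR g α) h) :
    ∃ h : (berLS K A[X]).SFat z (cstR (fun i => (C (g i) : A[X])) α),
      ((prM K A).pullG p 0 a).1 z =
        (berLS K A[X]).germ (cstR (fun i => (C (g i) : A[X])) α) h := by
  obtain ⟨k, hk⟩ := ha
  refine ⟨(prM K A).sfat k, ?_⟩
  rw [Mor.pullG_val, hk, Mor.pullS_germ]
  rfl

theorem step_cst (gA : Good K A) (gX : Good K A[X]) (hU : ∀ r, 0 < r → CircU K A r)
    {g : Fin n → A} (h : TorP K g) (b : Fin (n + 1) → ℝ) (p : ℕ) (c : (berLS K A[X]).G p 0)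
    (hc : ∀ z ∈ torS K (coX g) b, (berLS K A[X]).ddS p 0 z (c.1 z) = 0) :
    ∃ α : (Fin (n + 1) → ℝ) [⋀^Fin p]→L[ℝ] ℝ, ∀ z ∈ torS K (coX g) b,
      ∃ h : (berLS K A[X]).SFat z (cstR (coX g) α),
        c.1 z = (berLS K A[X]).germ (cstR (coX g) α) h := by
  classical
  have hr : 0 < Real.exp (b 0) := Real.exp_pos _
  rw [torS_coX] at hc ⊢
  have hZ := h.compact fun i => b i.succ
  have hX0 : (X : A[X]) ∈ Finset.univ.image (coX g) :=
    Finset.mem_image.2 ⟨0, Finset.mem_univ _, rfl⟩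
  cases p with
  | zero =>
    obtain ⟨a, ha, he⟩ := circ_cst0 gA gX (hU _ hr) hZ c hc
    obtain ⟨α, hα⟩ := h.cst _ 0 a ha
    obtain ⟨γ, hγ⟩ := exists_cstR (g := coX g)
      (isCst_cstR (fun i => (C (g i) : A[X])) α)
      ((isSF_cstR (fun i => (C (g i) : A[X])) α).mono (step_image g))
    refine ⟨γ, fun z hz => ?_⟩
    obtain ⟨k, hk⟩ := step_pullg (hα _ hz.2)
    refine ⟨hγ ▸ k, ?_⟩
    rw [he z hz, hk]
    exact (berLS K A[X]).germ_congr hγ _ _
  | succ p =>
    obtain ⟨a, b', ha, hb, he⟩ := circ_cst1 gA gX (hU _ hr) hr hZ c hc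
    obtain ⟨α, hα⟩ := h.cst _ (p + 1) a ha
    obtain ⟨β, hβ⟩ := h.cst _ p b' hb
    obtain ⟨γ, hγ⟩ := exists_cstR (g := coX g)
      ((isCst_cstR (fun i => (C (g i) : A[X])) α).add ((isCst_dlg (X : A[X])).wdg1
        (isCst_cstR (fun i => (C (g i) : A[X])) β)))
      (((isSF_cstR (fun i => (C (g i) : A[X])) α).mono (step_image g)).add
        ((isSF_dlg hX0).wdg1 ((isSF_cstR (fun i => (C (g i) : A[X])) β).mono (step_image g))))
    refine ⟨γ, fun z hz => ?_⟩
    have hX : z ∈ (berLS K A[X]).dom (X : A[X]) := dom_of_circ hr hz.1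
    obtain ⟨k, hk⟩ := step_pullg (hα _ hz.2)
    obtain ⟨l, hl⟩ := step_pullg (hβ _ hz.2)
    have k3 : (berLS K A[X]).SFat z (dlg (X : A[X])) :=
      ⟨{X}, isSF_dlg (Finset.mem_singleton_self _), fun f hf => by
        rw [Finset.mem_singleton.1 hf]
        exact hX⟩
    have k4 := k.add (LogSpace.SFat.wdg1 _ k3 l)
    refine ⟨hγ ▸ k4, ?_⟩
    have e1 : (berLS K A[X]).dlS (X : A[X]) hX = (berLS K A[X]).germ (dlg (X : A[X])) k3 := rfl
    rw [he z hz hX, hk, hl, e1, LogSpace.wdS_germ, ← LogSpace.germ_add]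
    exact (berLS K A[X]).germ_congr hγ _ _

/-- A global section with a given constant germ at `y`. -/
theorem step_sec (gA : Good K A) {p : ℕ} {g : Fin n → A} {y : Ber K A}
    (hy : ∀ i, y ∈ (berLS K A).dom (g i)) (α : (Fin n → ℝ) [⋀^Fin p]→L[ℝ] ℝ) :
    ∃ a : (berLS K A).G p 0, (berLS K A).ddS p 0 y (a.1 y) = 0 ∧
      (a.1 y = 0 → (berLS K A).Van y (cstR g α)) ∧
      ∀ z : Ber K A[X], (prM K A).toFun z = y →
        ∃ h : (berLS K A[X]).SFat z (cstR (fun i => (C (g i) : A[X])) α),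
          ((prM K A).pullG p 0 a).1 z =
            (berLS K A[X]).germ (cstR (fun i => (C (g i) : A[X])) α) h := by
  have := gA.lc
  obtain ⟨a, ha⟩ := (berLS K A).extend_germ gA.cut ((berLS K A).sfat_cstR hy α)
  obtain ⟨k, hk⟩ := ha.self_of_nhds
  refine ⟨a, ?_, ?_, ?_⟩
  · rw [hk, LogSpace.ddS_germ]
    exact (berLS K A).germ_of_eq_zero (dd_cst (isCst_cstR g α)) _
  · intro h0
    rw [hk, LogSpace.germ_eq_zero] at h0
    exact h0
  · rintro z rfl
    exact step_pullg ⟨k, hk⟩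

theorem step_pre {y : Ber K A} {z : Ber K A[X]} {Z : Set (Ber K A)}
    (hz : (prM K A).toFun z = y) (hy : y ∈ Z) : z ∈ (prM K A).toFun ⁻¹' Z := by
  subst hz
  exact hy

theorem step_uniq (gA : Good K A) (hU : ∀ r, 0 < r → CircU K A r)
    {g : Fin n → A} (h : TorP K g) (b : Fin (n + 1) → ℝ) (p : ℕ)
    (γ : (Fin (n + 1) → ℝ) [⋀^Fin p]→L[ℝ] ℝ)
    (hv : ∀ z ∈ torS K (coX g) b, (berLS K A[X]).Van z (cstR (coX g) γ)) : γ = 0 := by
  have hr : 0 < Real.exp (b 0) := Real.exp_pos _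
  rw [torS_coX] at hv
  cases p with
  | zero =>
    obtain ⟨α, h1, h2⟩ := cstR_zero (Φ := A[X]) γ
    refine h2 (h.uniq (fun i => b i.succ) 0 α fun y hy => ?_)
    obtain ⟨a, a1, a2, a3⟩ := step_sec gA (torS_dom hy) α
    refine a2 ((hU _ hr).inj0 y a a1 fun z hz hzy => ?_)
    obtain ⟨k, hk⟩ := a3 z hzy
    rw [hk, LogSpace.germ_eq_zero]
    have h3 := hv z ⟨hz, step_pre hzy hy⟩
    rw [h1] at h3
    exact h3
  | succ p =>
    obtain ⟨α, β, h1, h2⟩ := cstR_succ (Φ := A[X]) γ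
    have key : ∀ y ∈ torS K g (fun i => b i.succ),
        (berLS K A).Van y (cstR g α) ∧ (berLS K A).Van y (cstR g β) := by
      intro y hy
      obtain ⟨a, a1, a2, a3⟩ := step_sec gA (torS_dom hy) α
      obtain ⟨b', b1, b2, b3⟩ := step_sec gA (torS_dom hy) β
      have h4 := (hU _ hr).inj1 p y a b' a1 b1 (fun z hz hX hzy => by
        obtain ⟨k, hk⟩ := a3 z hzy
        obtain ⟨l, hl⟩ := b3 z hzy
        have k3 : (berLS K A[X]).SFat z (dlg (X : A[X])) :=
          ⟨{X}, isSF_dlg (Finset.mem_singleton_self _), fun f hf => by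
            rw [Finset.mem_singleton.1 hf]
            exact hX⟩
        have e1 : (berLS K A[X]).dlS (X : A[X]) hX =
            (berLS K A[X]).germ (dlg (X : A[X])) k3 := rfl
        rw [hk, hl, e1, LogSpace.wdS_germ, ← LogSpace.germ_add, LogSpace.germ_eq_zero]
        have h3 := hv z ⟨hz, step_pre hzy hy⟩
        rw [h1] at h3
        exact h3)
      exact ⟨a2 h4.1, b2 h4.2⟩
    exact h2 (h.uniq _ _ α fun y hy => (key y hy).1) (h.uniq _ _ β fun y hy => (key y hy).2)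

/-- (F2), induction step. -/
theorem TorP.step (gA : Good K A) (gX : Good K A[X]) (hU : ∀ r, 0 < r → CircU K A r)
    {g : Fin n → A} (h : TorP K g) : TorP K (coX g) where
  compact b := step_compact h b
  ex b p q c hc := step_ex gA gX hU h b p q c hc
  cst b p c hc := step_cst gA gX hU h b p c hc
  uniq b p α hα := step_uniq gA hU h b p α hα

end

end Pool.Agent.TD
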